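import Pool.Agent.Helper57.TI.Inj
import Pool.Agent.Helper7.TB.Typ

/-!
MP_8ee768_co, project TH-Y': isomorphisms between the pair link types.

The hypothesis `IsoH` is the conjunction of the kernel checks `okB typ (recB k) (64 k) = true`,
`k < 80`, of the modules `Pool/Agent/Gen/TY/ISO`.
-/

set_option autoImplicit false
set_option maxRecDepth 100000

namespace Pool.Agent.Helper57.TI

open Finset
open Pool.Agent.Helper57.TY
open Pool.Agent.Helper97.CV
open Pool.Agent.Helper79.CV
open Pool.Agent.Helper7.TB (typ)

/-- the kernel checks of the types -/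
def IsoH : Prop := ∀ k, k < 80 → okB typ (recB k) (64 * k) = true

/-- lengths of the blocks -/
def lenOK : Bool := (List.range 80).all fun k =>
  Nat.ble (bif Nat.blt k 79 then 64 else 18) (recB k).length

theorem lenOK_ok : lenOK = true := by decide +kernel

theorem len_recB {a : ℕ} (ha : a < 5074) : a % 64 < (recB (a / 64)).length := by
  have h := lenOK_ok
  unfold lenOK at h
  rw [List.all_eq_true] at h
  have h1 := h (a / 64) (List.mem_range.2 (by omega))
  rw [Nat.ble_eq] at h1
  cases h2 : Nat.blt (a / 64) 79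
  · rw [h2, cond_false] at h1
    have h3 : ¬ a / 64 < 79 := by
      rw [← Nat.blt_eq, h2]
      exact Bool.false_ne_true
    omega
  · rw [h2, cond_true] at h1
    omega

theorem rcd_eq {a : ℕ} (ha : a < 5074) :
    rcd a = (recB (a / 64))[a % 64]'(len_recB ha) := by
  have e1 : Nat.shiftRight a 6 = a / 64 := by
    have e : Nat.shiftRight a 6 = a >>> 6 := rfl
    rw [e, Nat.shiftRight_eq_div_pow]
  have e2 : Nat.land a 63 = a % 64 := by
    have e : Nat.land a 63 = a &&& (2 ^ 6 - 1) := rfl
    rw [e, Nat.and_two_pow_sub_one_eq_mod]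
  unfold rcd
  rw [e1, e2]
  exact nthR_eq (len_recB ha)

theorem good_typ (hB : IsoH) {a : ℕ} (ha : a < 5074) :
    Good sched (typ a) (rcd a).tr (rcd a).au := by
  have h := okB_sound (hB (a / 64) (by omega)) (a % 64) (len_recB ha)
  rw [← rcd_eq ha, Nat.div_add_mod] at h
  exact h

theorem nib_shift (X i : ℕ) : nib (Nat.shiftRight X 16) i = nib X (i + 4) := by
  refine Nat.eq_of_testBit_eq fun b => ?_
  have e : Nat.shiftRight X 16 = X >>> 16 := rfl
  rw [testBit_nib, testBit_nib, e, Nat.testBit_shiftRight]
  congr 2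
  omega

/-- **isomorphisms between the pair link types** -/
theorem iso_types (hB : IsoH) {a b : ℕ} (ha : a < 5074) (hb : b < 5074)
    {s : Equiv.Perm (Fin 13)} (h11 : s 11 = 11) (h12 : s 12 = 12)
    (h : mapF s (fam 11 3 (typ a)) = fam 11 3 (typ b)) : a = b ∧ cd s ∈ auts a := by
  have hga := good_typ hB ha
  have hgb := good_typ hB hb
  have h1 := trace_eq hga hgb h11 h12 h
  have hk : key a = key b := by
    refine nib_ext fun i => ?_
    by_cases hi : i < 66
    · unfold key
      rw [nib_shift, nib_shift]
      refine h1 _ ?_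
      rw [plc_sched, List.mem_map]
      exact ⟨i, List.mem_range.2 hi, rfl⟩
    · have h2 : ∀ c : ℕ, c < 5074 → nib (key c) i = 0 := by
        intro c hc
        refine Nat.eq_of_testBit_eq fun b => ?_
        rw [testBit_nib, Nat.zero_testBit, Nat.testBit_eq_false_of_lt (lt_of_lt_of_le (key_lt hc)
          (Nat.pow_le_pow_right (by norm_num) (by omega))), Bool.and_false]
      rw [h2 a ha, h2 b hb]
  have hab := key_inj ha hb hk
  subst hab
  exact ⟨rfl, aut_mem hga h11 h12 h⟩

end Pool.Agent.Helper57.TI
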