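import Pool.Agent.Helper57.TI.Recs

/-!
MP_8ee768_co, project TH-Y': the smallest traces of the pair link types are different.
-/

set_option autoImplicit false
set_option maxRecDepth 100000

namespace Pool.Agent.Helper57.TI

open Pool.Agent.Helper57.TY

/-- the types in the order of their traces -/
def ordL : List ℕ := [nat_lit 1195, nat_lit 1876, nat_lit 2887, nat_lit 1775, nat_lit 5064, nat_lit 1949, nat_lit 2866,
  nat_lit 705, nat_lit 4723, nat_lit 832, nat_lit 2821, nat_lit 3335, nat_lit 4827, nat_lit 2541,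
  nat_lit 2500, nat_lit 2783, nat_lit 496, nat_lit 1911, nat_lit 1169, nat_lit 1704, nat_lit 2626,
  nat_lit 4843, nat_lit 3527, nat_lit 151, nat_lit 3780, nat_lit 1881, nat_lit 4748, nat_lit 2131,
  nat_lit 2015, nat_lit 1695, nat_lit 3042, nat_lit 2722, nat_lit 3391, nat_lit 2407, nat_lit 3875,
  nat_lit 1299, nat_lit 4894, nat_lit 2008, nat_lit 428, nat_lit 2325, nat_lit 283, nat_lit 1952,
  nat_lit 3726, nat_lit 4110, nat_lit 1486, nat_lit 3294, nat_lit 2635, nat_lit 2511, nat_lit 3239,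
  nat_lit 2397, nat_lit 3415, nat_lit 4058, nat_lit 1637, nat_lit 1598, nat_lit 3065, nat_lit 3509,
  nat_lit 1995, nat_lit 2813, nat_lit 4962, nat_lit 3161, nat_lit 1504, nat_lit 2445, nat_lit 557,
  nat_lit 1623, nat_lit 1552, nat_lit 2804, nat_lit 4297, nat_lit 178, nat_lit 1540, nat_lit 4851,
  nat_lit 2870, nat_lit 4708, nat_lit 1522, nat_lit 3037, nat_lit 2810, nat_lit 1566, nat_lit 1872,
  nat_lit 2188, nat_lit 2734, nat_lit 3058, nat_lit 5070, nat_lit 566, nat_lit 2773, nat_lit 2404,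
  nat_lit 3426, nat_lit 3510, nat_lit 1590, nat_lit 4273, nat_lit 4874, nat_lit 2017, nat_lit 1724,
  nat_lit 4890, nat_lit 2363, nat_lit 4915, nat_lit 2568, nat_lit 1313, nat_lit 1188, nat_lit 1442,
  nat_lit 2969, nat_lit 2999, nat_lit 1833, nat_lit 824, nat_lit 571, nat_lit 2882, nat_lit 2420,
  nat_lit 1139, nat_lit 930, nat_lit 4666, nat_lit 580, nat_lit 835, nat_lit 4777, nat_lit 1487,
  nat_lit 3593, nat_lit 1321, nat_lit 4161, nat_lit 2922, nat_lit 3156, nat_lit 1390, nat_lit 1382,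
  nat_lit 4317, nat_lit 2013, nat_lit 2318, nat_lit 4952, nat_lit 5000, nat_lit 2954, nat_lit 3141,
  nat_lit 1362, nat_lit 4975, nat_lit 4847, nat_lit 1339, nat_lit 1860, nat_lit 4961, nat_lit 3371,
  nat_lit 2803, nat_lit 2856, nat_lit 3553, nat_lit 1087, nat_lit 2569, nat_lit 4514, nat_lit 2468,
  nat_lit 5052, nat_lit 3625, nat_lit 4960, nat_lit 583, nat_lit 707, nat_lit 723, nat_lit 698,
  nat_lit 395, nat_lit 1451, nat_lit 2660, nat_lit 1597, nat_lit 1884, nat_lit 1963, nat_lit 950,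
  nat_lit 3119, nat_lit 1987, nat_lit 640, nat_lit 949, nat_lit 4919, nat_lit 2780, nat_lit 2086,
  nat_lit 3178, nat_lit 931, nat_lit 928, nat_lit 588, nat_lit 589, nat_lit 1672, nat_lit 1622,
  nat_lit 1751, nat_lit 2545, nat_lit 3417, nat_lit 3466, nat_lit 2736, nat_lit 3041, nat_lit 1154,
  nat_lit 525, nat_lit 4840, nat_lit 708, nat_lit 833, nat_lit 2474, nat_lit 507, nat_lit 885,
  nat_lit 579, nat_lit 4383, nat_lit 1615, nat_lit 1542, nat_lit 3557, nat_lit 4393, nat_lit 542,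
  nat_lit 163, nat_lit 1334, nat_lit 3081, nat_lit 1001, nat_lit 3080, nat_lit 1000, nat_lit 2123,
  nat_lit 1365, nat_lit 3128, nat_lit 1164, nat_lit 4841, nat_lit 1175, nat_lit 3846, nat_lit 4560,
  nat_lit 159, nat_lit 160, nat_lit 3511, nat_lit 2508, nat_lit 2043, nat_lit 3187, nat_lit 813,
  nat_lit 3464, nat_lit 966, nat_lit 967, nat_lit 3907, nat_lit 4245, nat_lit 1256, nat_lit 3247,
  nat_lit 3914, nat_lit 177, nat_lit 761, nat_lit 1756, nat_lit 3056, nat_lit 1708, nat_lit 3985,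
  nat_lit 3101, nat_lit 2951, nat_lit 3175, nat_lit 5034, nat_lit 1747, nat_lit 3708, nat_lit 1250,
  nat_lit 1196, nat_lit 886, nat_lit 686, nat_lit 702, nat_lit 2579, nat_lit 3958, nat_lit 4271,
  nat_lit 4362, nat_lit 2771, nat_lit 3066, nat_lit 1848, nat_lit 3692, nat_lit 1636, nat_lit 2360,
  nat_lit 798, nat_lit 1910, nat_lit 1400, nat_lit 1501, nat_lit 1199, nat_lit 1701, nat_lit 3525,
  nat_lit 3825, nat_lit 797, nat_lit 1056, nat_lit 2789, nat_lit 733, nat_lit 3191, nat_lit 2546,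
  nat_lit 624, nat_lit 1397, nat_lit 1364, nat_lit 1983, nat_lit 2531, nat_lit 1981, nat_lit 350,
  nat_lit 2925, nat_lit 3596, nat_lit 3012, nat_lit 2324, nat_lit 3126, nat_lit 3217, nat_lit 2735,
  nat_lit 1016, nat_lit 3831, nat_lit 3061, nat_lit 400, nat_lit 2328, nat_lit 753, nat_lit 162,
  nat_lit 3775, nat_lit 2711, nat_lit 2229, nat_lit 1565, nat_lit 1042, nat_lit 3407, nat_lit 3686,
  nat_lit 1505, nat_lit 1494, nat_lit 3132, nat_lit 5017, nat_lit 86, nat_lit 3545, nat_lit 1998,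
  nat_lit 3252, nat_lit 1992, nat_lit 2884, nat_lit 4581, nat_lit 4308, nat_lit 3493, nat_lit 1812,
  nat_lit 4554, nat_lit 3172, nat_lit 3013, nat_lit 3495, nat_lit 2271, nat_lit 4026, nat_lit 4779,
  nat_lit 4473, nat_lit 836, nat_lit 1363, nat_lit 3439, nat_lit 3502, nat_lit 173, nat_lit 3640,
  nat_lit 115, nat_lit 4331, nat_lit 154, nat_lit 3147, nat_lit 2208, nat_lit 108, nat_lit 3603,
  nat_lit 2022, nat_lit 123, nat_lit 4004, nat_lit 2458, nat_lit 3590, nat_lit 3315, nat_lit 3994,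
  nat_lit 2933, nat_lit 1851, nat_lit 2032, nat_lit 2959, nat_lit 2435, nat_lit 1510, nat_lit 1523,
  nat_lit 2042, nat_lit 1855, nat_lit 3890, nat_lit 1462, nat_lit 2411, nat_lit 1202, nat_lit 182,
  nat_lit 2117, nat_lit 2998, nat_lit 3793, nat_lit 331, nat_lit 2145, nat_lit 1591, nat_lit 3280,
  nat_lit 3792, nat_lit 3719, nat_lit 2033, nat_lit 1290, nat_lit 2302, nat_lit 2544, nat_lit 3341,
  nat_lit 3295, nat_lit 3706, nat_lit 2432, nat_lit 3372, nat_lit 3794, nat_lit 4467, nat_lit 351,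
  nat_lit 2343, nat_lit 4821, nat_lit 4986, nat_lit 2362, nat_lit 4448, nat_lit 1447, nat_lit 2950,
  nat_lit 3485, nat_lit 1783, nat_lit 2138, nat_lit 3431, nat_lit 150, nat_lit 2906, nat_lit 5055,
  nat_lit 2997, nat_lit 2543, nat_lit 2005, nat_lit 358, nat_lit 1707, nat_lit 2533, nat_lit 4568,
  nat_lit 1119, nat_lit 2485, nat_lit 1745, nat_lit 2085, nat_lit 2203, nat_lit 4722, nat_lit 4158,
  nat_lit 3523, nat_lit 2434, nat_lit 3858, nat_lit 142, nat_lit 973, nat_lit 800, nat_lit 1513,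
  nat_lit 4176, nat_lit 4010, nat_lit 655, nat_lit 1374, nat_lit 2567, nat_lit 3572, nat_lit 853,
  nat_lit 3233, nat_lit 4195, nat_lit 3836, nat_lit 2751, nat_lit 1008, nat_lit 862, nat_lit 2504,
  nat_lit 847, nat_lit 3015, nat_lit 40, nat_lit 3777, nat_lit 1383, nat_lit 2848, nat_lit 3807,
  nat_lit 2493, nat_lit 1570, nat_lit 4370, nat_lit 1705, nat_lit 2333, nat_lit 4382, nat_lit 2532,
  nat_lit 2867, nat_lit 2875, nat_lit 3844, nat_lit 1758, nat_lit 974, nat_lit 601, nat_lit 1629,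
  nat_lit 3332, nat_lit 4292, nat_lit 2056, nat_lit 2674, nat_lit 1493, nat_lit 849, nat_lit 551,
  nat_lit 1645, nat_lit 39, nat_lit 4300, nat_lit 858, nat_lit 2653, nat_lit 983, nat_lit 1031,
  nat_lit 3059, nat_lit 859, nat_lit 2526, nat_lit 5069, nat_lit 3121, nat_lit 4413, nat_lit 1710,
  nat_lit 4286, nat_lit 2595, nat_lit 4251, nat_lit 2100, nat_lit 2161, nat_lit 1752, nat_lit 170,
  nat_lit 1912, nat_lit 4016, nat_lit 3869, nat_lit 4364, nat_lit 3352, nat_lit 2655, nat_lit 4019,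
  nat_lit 2621, nat_lit 2628, nat_lit 3605, nat_lit 1733, nat_lit 3963, nat_lit 3913, nat_lit 2506,
  nat_lit 3997, nat_lit 4943, nat_lit 4430, nat_lit 290, nat_lit 2668, nat_lit 1643, nat_lit 911,
  nat_lit 3514, nat_lit 1099, nat_lit 4762, nat_lit 1500, nat_lit 1611, nat_lit 3095, nat_lit 2053,
  nat_lit 1791, nat_lit 3029, nat_lit 4992, nat_lit 3577, nat_lit 4596, nat_lit 5002, nat_lit 4028,
  nat_lit 2591, nat_lit 559, nat_lit 4024, nat_lit 3467, nat_lit 2101, nat_lit 183, nat_lit 3224,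
  nat_lit 3645, nat_lit 198, nat_lit 4512, nat_lit 2772, nat_lit 4522, nat_lit 1979, nat_lit 3841,
  nat_lit 3425, nat_lit 4460, nat_lit 2557, nat_lit 2285, nat_lit 4527, nat_lit 4088, nat_lit 3643,
  nat_lit 724, nat_lit 837, nat_lit 2255, nat_lit 4406, nat_lit 4787, nat_lit 2444, nat_lit 3146,
  nat_lit 2602, nat_lit 1278, nat_lit 2746, nat_lit 4417, nat_lit 2968, nat_lit 2502, nat_lit 3824,
  nat_lit 3476, nat_lit 5044, nat_lit 2599, nat_lit 4868, nat_lit 3379, nat_lit 4913, nat_lit 3347,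
  nat_lit 1654, nat_lit 4929, nat_lit 3614, nat_lit 3127, nat_lit 1302, nat_lit 3486, nat_lit 3720,
  nat_lit 1204, nat_lit 4407, nat_lit 3497, nat_lit 1012, nat_lit 1129, nat_lit 3139, nat_lit 3229,
  nat_lit 3967, nat_lit 2739, nat_lit 2946, nat_lit 4645, nat_lit 3599, nat_lit 4610, nat_lit 4824,
  nat_lit 3929, nat_lit 4479, nat_lit 4344, nat_lit 2067, nat_lit 3138, nat_lit 2928, nat_lit 1320,
  nat_lit 2108, nat_lit 1235, nat_lit 3904, nat_lit 1275, nat_lit 567, nat_lit 3465, nat_lit 4291,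
  nat_lit 1909, nat_lit 1218, nat_lit 3508, nat_lit 1350, nat_lit 2731, nat_lit 669, nat_lit 502,
  nat_lit 1253, nat_lit 4329, nat_lit 3689, nat_lit 2799, nat_lit 2536, nat_lit 560, nat_lit 1681,
  nat_lit 1456, nat_lit 3613, nat_lit 4696, nat_lit 506, nat_lit 2614, nat_lit 2107, nat_lit 4759,
  nat_lit 1748, nat_lit 2379, nat_lit 2840, nat_lit 1385, nat_lit 3130, nat_lit 2802, nat_lit 2227,
  nat_lit 4905, nat_lit 3192, nat_lit 4822, nat_lit 1601, nat_lit 3173, nat_lit 4923, nat_lit 3116,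
  nat_lit 3019, nat_lit 2200, nat_lit 1288, nat_lit 1663, nat_lit 4293, nat_lit 1965, nat_lit 4876,
  nat_lit 3702, nat_lit 1834, nat_lit 4488, nat_lit 2649, nat_lit 760, nat_lit 3220, nat_lit 3729,
  nat_lit 2556, nat_lit 122, nat_lit 1262, nat_lit 4181, nat_lit 4175, nat_lit 1650, nat_lit 1165,
  nat_lit 1864, nat_lit 1076, nat_lit 2957, nat_lit 2823, nat_lit 2981, nat_lit 2334, nat_lit 3255,
  nat_lit 4711, nat_lit 1296, nat_lit 1032, nat_lit 1919, nat_lit 3547, nat_lit 848, nat_lit 1483,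
  nat_lit 1022, nat_lit 1532, nat_lit 961, nat_lit 2759, nat_lit 4475, nat_lit 3499, nat_lit 3435,
  nat_lit 1996, nat_lit 4113, nat_lit 4955, nat_lit 3422, nat_lit 4586, nat_lit 3438, nat_lit 2170,
  nat_lit 2615, nat_lit 1726, nat_lit 1626, nat_lit 2137, nat_lit 1081, nat_lit 3524, nat_lit 3709,
  nat_lit 2391, nat_lit 4105, nat_lit 2052, nat_lit 3033, nat_lit 1054, nat_lit 1033, nat_lit 2712,
  nat_lit 2233, nat_lit 570, nat_lit 2041, nat_lit 397, nat_lit 645, nat_lit 369, nat_lit 478,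
  nat_lit 1975, nat_lit 717, nat_lit 324, nat_lit 4736, nat_lit 3400, nat_lit 1941, nat_lit 3811,
  nat_lit 3546, nat_lit 3063, nat_lit 1444, nat_lit 1835, nat_lit 1822, nat_lit 4904, nat_lit 4102,
  nat_lit 4550, nat_lit 4549, nat_lit 3022, nat_lit 4532, nat_lit 4889, nat_lit 5038, nat_lit 2471,
  nat_lit 1459, nat_lit 471, nat_lit 1146, nat_lit 1926, nat_lit 3816, nat_lit 2611, nat_lit 4861,
  nat_lit 3208, nat_lit 4592, nat_lit 4139, nat_lit 4197, nat_lit 4020, nat_lit 5049, nat_lit 3612,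
  nat_lit 3587, nat_lit 3751, nat_lit 1096, nat_lit 2047, nat_lit 4106, nat_lit 4257, nat_lit 1589,
  nat_lit 913, nat_lit 1414, nat_lit 537, nat_lit 933, nat_lit 520, nat_lit 447, nat_lit 354,
  nat_lit 895, nat_lit 250, nat_lit 121, nat_lit 4111, nat_lit 2034, nat_lit 3189, nat_lit 1667,
  nat_lit 988, nat_lit 2448, nat_lit 1080, nat_lit 3598, nat_lit 4883, nat_lit 2818, nat_lit 749,
  nat_lit 4163, nat_lit 3388, nat_lit 3150, nat_lit 457, nat_lit 4138, nat_lit 720, nat_lit 409,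
  nat_lit 4732, nat_lit 353, nat_lit 674, nat_lit 2509, nat_lit 2766, nat_lit 1280, nat_lit 2648,
  nat_lit 2960, nat_lit 4641, nat_lit 1318, nat_lit 1428, nat_lit 1020, nat_lit 1019, nat_lit 1789,
  nat_lit 396, nat_lit 61, nat_lit 4726, nat_lit 319, nat_lit 4768, nat_lit 1986, nat_lit 2885,
  nat_lit 3089, nat_lit 3180, nat_lit 4727, nat_lit 1125, nat_lit 3911, nat_lit 535, nat_lit 320,
  nat_lit 212, nat_lit 208, nat_lit 2708, nat_lit 1999, nat_lit 2876, nat_lit 4381, nat_lit 2248,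
  nat_lit 1068, nat_lit 890, nat_lit 4154, nat_lit 2833, nat_lit 2705, nat_lit 3190, nat_lit 3093,
  nat_lit 1856, nat_lit 2564, nat_lit 2479, nat_lit 2629, nat_lit 1869, nat_lit 2118, nat_lit 4071,
  nat_lit 3962, nat_lit 4516, nat_lit 4884, nat_lit 5039, nat_lit 3427, nat_lit 1883, nat_lit 3083,
  nat_lit 1692, nat_lit 2710, nat_lit 2790, nat_lit 1529, nat_lit 90, nat_lit 341, nat_lit 342,
  nat_lit 4907, nat_lit 2538, nat_lit 2769, nat_lit 2257, nat_lit 4548, nat_lit 3800, nat_lit 4485,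
  nat_lit 1220, nat_lit 1665, nat_lit 840, nat_lit 980, nat_lit 2096, nat_lit 3809, nat_lit 1274,
  nat_lit 3839, nat_lit 441, nat_lit 975, nat_lit 1550, nat_lit 1893, nat_lit 1618, nat_lit 2274,
  nat_lit 2844, nat_lit 3988, nat_lit 2528, nat_lit 322, nat_lit 1632, nat_lit 4275, nat_lit 2464,
  nat_lit 1631, nat_lit 2112, nat_lit 4332, nat_lit 1880, nat_lit 2890, nat_lit 3110, nat_lit 3232,
  nat_lit 4668, nat_lit 3054, nat_lit 923, nat_lit 1861, nat_lit 2664, nat_lit 4199, nat_lit 3652,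
  nat_lit 2888, nat_lit 2336, nat_lit 2462, nat_lit 3661, nat_lit 2023, nat_lit 4445, nat_lit 4384,
  nat_lit 2881, nat_lit 4676, nat_lit 2375, nat_lit 1832, nat_lit 338, nat_lit 4588, nat_lit 1283,
  nat_lit 693, nat_lit 3412, nat_lit 3206, nat_lit 3205, nat_lit 4283, nat_lit 1602, nat_lit 2748,
  nat_lit 995, nat_lit 785, nat_lit 4621, nat_lit 841, nat_lit 1652, nat_lit 899, nat_lit 981,
  nat_lit 4157, nat_lit 2687, nat_lit 1792, nat_lit 901, nat_lit 1035, nat_lit 2045, nat_lit 4321,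
  nat_lit 3082, nat_lit 1991, nat_lit 1561, nat_lit 3236, nat_lit 2744, nat_lit 332, nat_lit 2836,
  nat_lit 3540, nat_lit 3539, nat_lit 1937, nat_lit 2616, nat_lit 2433, nat_lit 3562, nat_lit 2006,
  nat_lit 3828, nat_lit 2295, nat_lit 4241, nat_lit 3258, nat_lit 1098, nat_lit 4565, nat_lit 3218,
  nat_lit 4969, nat_lit 2298, nat_lit 2482, nat_lit 4965, nat_lit 4958, nat_lit 4814, nat_lit 1608,
  nat_lit 2540, nat_lit 3163, nat_lit 4590, nat_lit 1948, nat_lit 544, nat_lit 2983, nat_lit 775,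
  nat_lit 764, nat_lit 696, nat_lit 18, nat_lit 4882, nat_lit 4141, nat_lit 2592, nat_lit 1790,
  nat_lit 4089, nat_lit 2483, nat_lit 3646, nat_lit 1153, nat_lit 2984, nat_lit 2940, nat_lit 3145,
  nat_lit 2189, nat_lit 1722, nat_lit 1028, nat_lit 2683, nat_lit 2236, nat_lit 4077, nat_lit 3796,
  nat_lit 4264, nat_lit 1499, nat_lit 4927, nat_lit 4220, nat_lit 2613, nat_lit 4924, nat_lit 4914,
  nat_lit 4812, nat_lit 1538, nat_lit 3817, nat_lit 2140, nat_lit 1533, nat_lit 1240, nat_lit 3142,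
  nat_lit 3893, nat_lit 1143, nat_lit 1162, nat_lit 1484, nat_lit 2307, nat_lit 4140, nat_lit 1351,
  nat_lit 3243, nat_lit 635, nat_lit 128, nat_lit 2035, nat_lit 3244, nat_lit 315, nat_lit 4994,
  nat_lit 1666, nat_lit 1426, nat_lit 257, nat_lit 253, nat_lit 914, nat_lit 1075, nat_lit 4186,
  nat_lit 969, nat_lit 1595, nat_lit 4675, nat_lit 3630, nat_lit 1420, nat_lit 2365, nat_lit 1584,
  nat_lit 318, nat_lit 2430, nat_lit 4993, nat_lit 3823, nat_lit 1674, nat_lit 3944, nat_lit 4054,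
  nat_lit 4098, nat_lit 1088, nat_lit 1896, nat_lit 2563, nat_lit 4525, nat_lit 3444, nat_lit 2672,
  nat_lit 4879, nat_lit 4970, nat_lit 1424, nat_lit 327, nat_lit 1651, nat_lit 45, nat_lit 2697,
  nat_lit 945, nat_lit 2490, nat_lit 1190, nat_lit 3298, nat_lit 1555, nat_lit 1943, nat_lit 1899,
  nat_lit 3430, nat_lit 2403, nat_lit 1873, nat_lit 3544, nat_lit 4587, nat_lit 399, nat_lit 4850,
  nat_lit 1793, nat_lit 3297, nat_lit 2585, nat_lit 4622, nat_lit 3730, nat_lit 2088, nat_lit 2309,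
  nat_lit 954, nat_lit 935, nat_lit 593, nat_lit 943, nat_lit 912, nat_lit 936, nat_lit 404,
  nat_lit 5047, nat_lit 690, nat_lit 3199, nat_lit 637, nat_lit 555, nat_lit 1594, nat_lit 2561,
  nat_lit 678, nat_lit 834, nat_lit 942, nat_lit 401, nat_lit 1009, nat_lit 1616, nat_lit 4314,
  nat_lit 495, nat_lit 541, nat_lit 819, nat_lit 4316, nat_lit 412, nat_lit 3578, nat_lit 1879,
  nat_lit 2198, nat_lit 4672, nat_lit 3896, nat_lit 3011, nat_lit 1521, nat_lit 1209, nat_lit 504,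
  nat_lit 38, nat_lit 4228, nat_lit 4230, nat_lit 1136, nat_lit 3767, nat_lit 3102, nat_lit 65,
  nat_lit 2869, nat_lit 2242, nat_lit 2729, nat_lit 584, nat_lit 304, nat_lit 33, nat_lit 2424,
  nat_lit 4145, nat_lit 4320, nat_lit 2525, nat_lit 1511, nat_lit 3500, nat_lit 3408, nat_lit 4791,
  nat_lit 3880, nat_lit 3182, nat_lit 3409, nat_lit 4931, nat_lit 1112, nat_lit 262, nat_lit 313,
  nat_lit 3024, nat_lit 4577, nat_lit 4263, nat_lit 3879, nat_lit 4715, nat_lit 3984, nat_lit 1731,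
  nat_lit 1057, nat_lit 5035, nat_lit 1773, nat_lit 2221, nat_lit 1806, nat_lit 3871, nat_lit 687,
  nat_lit 688, nat_lit 701, nat_lit 3021, nat_lit 1850, nat_lit 4603, nat_lit 4059, nat_lit 340,
  nat_lit 3496, nat_lit 3700, nat_lit 3447, nat_lit 3776, nat_lit 4153, nat_lit 2721, nat_lit 1270,
  nat_lit 3003, nat_lit 929, nat_lit 248, nat_lit 608, nat_lit 563, nat_lit 1128, nat_lit 695,
  nat_lit 968, nat_lit 534, nat_lit 1497, nat_lit 5040, nat_lit 4611, nat_lit 4765, nat_lit 4899,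
  nat_lit 2260, nat_lit 963, nat_lit 909, nat_lit 889, nat_lit 888, nat_lit 4674, nat_lit 1421,
  nat_lit 3152, nat_lit 2654, nat_lit 3440, nat_lit 3195, nat_lit 2936, nat_lit 195, nat_lit 4086,
  nat_lit 236, nat_lit 328, nat_lit 941, nat_lit 540, nat_lit 1229, nat_lit 925, nat_lit 3558,
  nat_lit 3947, nat_lit 3094, nat_lit 1647, nat_lit 2565, nat_lit 172, nat_lit 1327, nat_lit 2228,
  nat_lit 3419, nat_lit 3481, nat_lit 3480, nat_lit 4681, nat_lit 4654, nat_lit 3259, nat_lit 1839,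
  nat_lit 4922, nat_lit 2354, nat_lit 4888, nat_lit 1249, nat_lit 2083, nat_lit 2377, nat_lit 4203,
  nat_lit 1761, nat_lit 135, nat_lit 2627, nat_lit 4573, nat_lit 1069, nat_lit 1160, nat_lit 1405,
  nat_lit 2428, nat_lit 240, nat_lit 3581, nat_lit 3418, nat_lit 4614, nat_lit 1156, nat_lit 804,
  nat_lit 403, nat_lit 2219, nat_lit 964, nat_lit 821, nat_lit 2454, nat_lit 1649, nat_lit 960,
  nat_lit 3053, nat_lit 4449, nat_lit 4386, nat_lit 3529, nat_lit 426, nat_lit 1596, nat_lit 1764,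
  nat_lit 591, nat_lit 922, nat_lit 1306, nat_lit 4625, nat_lit 3242, nat_lit 285, nat_lit 3790,
  nat_lit 962, nat_lit 4547, nat_lit 2408, nat_lit 1461, nat_lit 1640, nat_lit 1723, nat_lit 1612,
  nat_lit 1914, nat_lit 2665, nat_lit 1208, nat_lit 2622, nat_lit 1621, nat_lit 4196, nat_lit 3291,
  nat_lit 3608, nat_lit 398, nat_lit 654, nat_lit 3281, nat_lit 4402, nat_lit 1524, nat_lit 137,
  nat_lit 466, nat_lit 3177, nat_lit 4916, nat_lit 3394, nat_lit 1717, nat_lit 2467, nat_lit 3804,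
  nat_lit 420, nat_lit 4604, nat_lit 4288, nat_lit 2340, nat_lit 2341, nat_lit 2671, nat_lit 4682,
  nat_lit 965, nat_lit 2830, nat_lit 454, nat_lit 4123, nat_lit 2338, nat_lit 1100, nat_lit 27,
  nat_lit 3798, nat_lit 4810, nat_lit 1966, nat_lit 124, nat_lit 1389, nat_lit 3567, nat_lit 4740,
  nat_lit 4000, nat_lit 2618, nat_lit 74, nat_lit 854, nat_lit 3589, nat_lit 2764, nat_lit 4377,
  nat_lit 2018, nat_lit 2494, nat_lit 3749, nat_lit 600, nat_lit 4372, nat_lit 4767, nat_lit 4790,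
  nat_lit 1182, nat_lit 4083, nat_lit 865, nat_lit 3043, nat_lit 2962, nat_lit 2414, nat_lit 1653,
  nat_lit 4613, nat_lit 1837, nat_lit 2055, nat_lit 3051, nat_lit 4511, nat_lit 3392, nat_lit 1539,
  nat_lit 765, nat_lit 722, nat_lit 3365, nat_lit 926, nat_lit 489, nat_lit 2080, nat_lit 4366,
  nat_lit 1150, nat_lit 979, nat_lit 455, nat_lit 461, nat_lit 602, nat_lit 462, nat_lit 2871,
  nat_lit 47, nat_lit 169, nat_lit 2658, nat_lit 460, nat_lit 2608, nat_lit 207, nat_lit 32,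
  nat_lit 3683, nat_lit 3697, nat_lit 2623, nat_lit 452, nat_lit 3010, nat_lit 3343, nat_lit 1268,
  nat_lit 617, nat_lit 716, nat_lit 4605, nat_lit 3902, nat_lit 3158, nat_lit 3039, nat_lit 2143,
  nat_lit 2931, nat_lit 1961, nat_lit 2816, nat_lit 709, nat_lit 4374, nat_lit 1368, nat_lit 3211,
  nat_lit 3164, nat_lit 1049, nat_lit 1326, nat_lit 3399, nat_lit 187, nat_lit 2666, nat_lit 445,
  nat_lit 3254, nat_lit 639, nat_lit 2124, nat_lit 2677, nat_lit 3323, nat_lit 4848, nat_lit 3482,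
  nat_lit 2991, nat_lit 1373, nat_lit 2347, nat_lit 2075, nat_lit 206, nat_lit 299, nat_lit 302,
  nat_lit 851, nat_lit 2513, nat_lit 3764, nat_lit 565, nat_lit 2685, nat_lit 4027, nat_lit 2389,
  nat_lit 185, nat_lit 184, nat_lit 3248, nat_lit 4064, nat_lit 1669, nat_lit 2675, nat_lit 3766,
  nat_lit 3269, nat_lit 12, nat_lit 482, nat_lit 634, nat_lit 477, nat_lit 730, nat_lit 3795,
  nat_lit 3568, nat_lit 2661, nat_lit 1264, nat_lit 3383, nat_lit 467, nat_lit 1644, nat_lit 311,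
  nat_lit 295, nat_lit 757, nat_lit 869, nat_lit 301, nat_lit 0, nat_lit 5020, nat_lit 2793,
  nat_lit 1007, nat_lit 464, nat_lit 54, nat_lit 598, nat_lit 88, nat_lit 1830, nat_lit 3961,
  nat_lit 1070, nat_lit 2583, nat_lit 1642, nat_lit 10, nat_lit 4219, nat_lit 727, nat_lit 231,
  nat_lit 474, nat_lit 523, nat_lit 116, nat_lit 734, nat_lit 316, nat_lit 4400, nat_lit 1782,
  nat_lit 367, nat_lit 4521, nat_lit 2753, nat_lit 3326, nat_lit 4834, nat_lit 2121, nat_lit 4772,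
  nat_lit 1347, nat_lit 486, nat_lit 2294, nat_lit 3989, nat_lit 3064, nat_lit 561, nat_lit 1369,
  nat_lit 1811, nat_lit 3441, nat_lit 3617, nat_lit 4546, nat_lit 4953, nat_lit 1185, nat_lit 4746,
  nat_lit 4369, nat_lit 3755, nat_lit 402, nat_lit 940, nat_lit 3317, nat_lit 4156, nat_lit 4665,
  nat_lit 3754, nat_lit 1690, nat_lit 574, nat_lit 573, nat_lit 763, nat_lit 430, nat_lit 543,
  nat_lit 2897, nat_lit 4704, nat_lit 4656, nat_lit 3768, nat_lit 4545, nat_lit 1342, nat_lit 4685,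
  nat_lit 2676, nat_lit 2853, nat_lit 3601, nat_lit 1824, nat_lit 3784, nat_lit 1004, nat_lit 993,
  nat_lit 390, nat_lit 1613, nat_lit 2450, nat_lit 1217, nat_lit 568, nat_lit 519, nat_lit 1586,
  nat_lit 4754, nat_lit 4954, nat_lit 4684, nat_lit 5050, nat_lit 2841, nat_lit 3894, nat_lit 4447,
  nat_lit 4084, nat_lit 1614, nat_lit 2620, nat_lit 1607, nat_lit 4443, nat_lit 4442, nat_lit 110,
  nat_lit 2740, nat_lit 3253, nat_lit 2717, nat_lit 3267, nat_lit 4047, nat_lit 2126, nat_lit 266,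
  nat_lit 64, nat_lit 3616, nat_lit 56, nat_lit 1116, nat_lit 3222, nat_lit 5019, nat_lit 4209,
  nat_lit 4371, nat_lit 4653, nat_lit 2539, nat_lit 265, nat_lit 42, nat_lit 4701, nat_lit 4990,
  nat_lit 3210, nat_lit 4700, nat_lit 4002, nat_lit 621, nat_lit 2147, nat_lit 1335, nat_lit 251,
  nat_lit 24, nat_lit 622, nat_lit 4920, nat_lit 4908, nat_lit 491, nat_lit 726, nat_lit 3488,
  nat_lit 664, nat_lit 168, nat_lit 4583, nat_lit 451, nat_lit 481, nat_lit 4267, nat_lit 4776,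
  nat_lit 5018, nat_lit 4368, nat_lit 4609, nat_lit 3136, nat_lit 3928, nat_lit 3070, nat_lit 4774,
  nat_lit 4367, nat_lit 4926, nat_lit 2268, nat_lit 1348, nat_lit 4330, nat_lit 4248, nat_lit 2860,
  nat_lit 1398, nat_lit 2727, nat_lit 4658, nat_lit 1166, nat_lit 180, nat_lit 4808, nat_lit 4892,
  nat_lit 4818, nat_lit 2321, nat_lit 1541, nat_lit 2535, nat_lit 818, nat_lit 2492, nat_lit 1135,
  nat_lit 446, nat_lit 907, nat_lit 1194, nat_lit 846, nat_lit 4221, nat_lit 1902, nat_lit 3887,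
  nat_lit 2534, nat_lit 1394, nat_lit 697, nat_lit 282, nat_lit 129, nat_lit 2776, nat_lit 4280,
  nat_lit 4387, nat_lit 2060, nat_lit 844, nat_lit 444, nat_lit 3883, nat_lit 531, nat_lit 1111,
  nat_lit 805, nat_lit 4179, nat_lit 4500, nat_lit 271, nat_lit 131, nat_lit 1784, nat_lit 599,
  nat_lit 4820, nat_lit 2021, nat_lit 3870, nat_lit 1604, nat_lit 3367, nat_lit 1435, nat_lit 4833,
  nat_lit 3131, nat_lit 1432, nat_lit 2551, nat_lit 1680, nat_lit 3450, nat_lit 1719, nat_lit 1343,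
  nat_lit 1804, nat_lit 3927, nat_lit 2847, nat_lit 3104, nat_lit 1226, nat_lit 1376, nat_lit 2105,
  nat_lit 4160, nat_lit 3016, nat_lit 176, nat_lit 3882, nat_lit 3151, nat_lit 3166, nat_lit 3123,
  nat_lit 1254, nat_lit 3714, nat_lit 2641, nat_lit 1846, nat_lit 677, nat_lit 592, nat_lit 1797,
  nat_lit 3366, nat_lit 1682, nat_lit 371, nat_lit 3696, nat_lit 71, nat_lit 4281, nat_lit 1316,
  nat_lit 199, nat_lit 3279, nat_lit 3235, nat_lit 4003, nat_lit 948, nat_lit 298, nat_lit 67,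
  nat_lit 1145, nat_lit 1891, nat_lit 458, nat_lit 26, nat_lit 4928, nat_lit 845, nat_lit 46,
  nat_lit 418, nat_lit 1279, nat_lit 4576, nat_lit 1971, nat_lit 3634, nat_lit 3528, nat_lit 4693,
  nat_lit 3077, nat_lit 3410, nat_lit 4150, nat_lit 2157, nat_lit 3048, nat_lit 2253, nat_lit 2559,
  nat_lit 1953, nat_lit 2656, nat_lit 3979, nat_lit 125, nat_lit 754, nat_lit 2310, nat_lit 4997,
  nat_lit 423, nat_lit 3451, nat_lit 470, nat_lit 352, nat_lit 101, nat_lit 830, nat_lit 508,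
  nat_lit 4323, nat_lit 118, nat_lit 581, nat_lit 2555, nat_lit 373, nat_lit 951, nat_lit 1052,
  nat_lit 4461, nat_lit 4017, nat_lit 1503, nat_lit 2970, nat_lit 2845, nat_lit 3414, nat_lit 1440,
  nat_lit 1178, nat_lit 3548, nat_lit 906, nat_lit 1888, nat_lit 788, nat_lit 1338, nat_lit 1391,
  nat_lit 1184, nat_lit 3428, nat_lit 2000, nat_lit 3990, nat_lit 1564, nat_lit 1574, nat_lit 1132,
  nat_lit 4067, nat_lit 3031, nat_lit 4078, nat_lit 15, nat_lit 1985, nat_lit 1785, nat_lit 4718,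
  nat_lit 4631, nat_lit 4456, nat_lit 3246, nat_lit 2577, nat_lit 3786, nat_lit 3934, nat_lit 3338,
  nat_lit 2612, nat_lit 4789, nat_lit 1940, nat_lit 4167, nat_lit 2807, nat_lit 2690, nat_lit 102,
  nat_lit 152, nat_lit 2643, nat_lit 174, nat_lit 147, nat_lit 4909, nat_lit 3290, nat_lit 4295,
  nat_lit 3737, nat_lit 4794, nat_lit 4973, nat_lit 1403, nat_lit 3237, nat_lit 2216, nat_lit 2326,
  nat_lit 127, nat_lit 934, nat_lit 113, nat_lit 146, nat_lit 3490, nat_lit 2944, nat_lit 1845,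
  nat_lit 2524, nat_lit 1341, nat_lit 2737, nat_lit 469, nat_lit 4731, nat_lit 1827, nat_lit 3454,
  nat_lit 750, nat_lit 751, nat_lit 828, nat_lit 831, nat_lit 569, nat_lit 3316, nat_lit 511,
  nat_lit 978, nat_lit 3196, nat_lit 3310, nat_lit 827, nat_lit 95, nat_lit 777, nat_lit 435,
  nat_lit 2395, nat_lit 1072, nat_lit 3666, nat_lit 1935, nat_lit 4217, nat_lit 1078, nat_lit 4480,
  nat_lit 1466, nat_lit 4871, nat_lit 3910, nat_lit 4624, nat_lit 3569, nat_lit 4256, nat_lit 1430,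
  nat_lit 1159, nat_lit 1635, nat_lit 2834, nat_lit 4398, nat_lit 323, nat_lit 1779, nat_lit 3750,
  nat_lit 3711, nat_lit 1516, nat_lit 2750, nat_lit 2300, nat_lit 2805, nat_lit 1826, nat_lit 2327,
  nat_lit 4972, nat_lit 2600, nat_lit 1401, nat_lit 1045, nat_lit 3125, nat_lit 1969, nat_lit 456,
  nat_lit 16, nat_lit 3148, nat_lit 1718, nat_lit 937, nat_lit 1378, nat_lit 1395, nat_lit 1699,
  nat_lit 2050, nat_lit 3705, nat_lit 3946, nat_lit 3099, nat_lit 3837, nat_lit 2798, nat_lit 932,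
  nat_lit 492, nat_lit 721, nat_lit 4146, nat_lit 68, nat_lit 417, nat_lit 2939, nat_lit 2461,
  nat_lit 381, nat_lit 514, nat_lit 2892, nat_lit 876, nat_lit 233, nat_lit 1624, nat_lit 1492,
  nat_lit 4107, nat_lit 1330, nat_lit 2932, nat_lit 1340, nat_lit 1062, nat_lit 4571, nat_lit 17,
  nat_lit 1829, nat_lit 1771, nat_lit 3741, nat_lit 222, nat_lit 138, nat_lit 604, nat_lit 3275,
  nat_lit 606, nat_lit 120, nat_lit 3550, nat_lit 1955, nat_lit 4677, nat_lit 1840, nat_lit 4501,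
  nat_lit 4405, nat_lit 14, nat_lit 391, nat_lit 3357, nat_lit 3848, nat_lit 1543, nat_lit 4691,
  nat_lit 3193, nat_lit 4758, nat_lit 4618, nat_lit 4152, nat_lit 802, nat_lit 1817, nat_lit 2361,
  nat_lit 2073, nat_lit 2775, nat_lit 2356, nat_lit 1496, nat_lit 4315, nat_lit 3047, nat_lit 3753,
  nat_lit 850, nat_lit 738, nat_lit 80, nat_lit 3489, nat_lit 4343, nat_lit 4001, nat_lit 1580,
  nat_lit 3212, nat_lit 303, nat_lit 213, nat_lit 3105, nat_lit 4455, nat_lit 2272, nat_lit 2367,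
  nat_lit 3906, nat_lit 4109, nat_lit 4223, nat_lit 4072, nat_lit 866, nat_lit 1041, nat_lit 2484,
  nat_lit 1104, nat_lit 2601, nat_lit 1980, nat_lit 1331, nat_lit 4925, nat_lit 3165, nat_lit 5073,
  nat_lit 3492, nat_lit 970, nat_lit 1688, nat_lit 136, nat_lit 2162, nat_lit 5071, nat_lit 4760,
  nat_lit 4094, nat_lit 5072, nat_lit 4553, nat_lit 4949, nat_lit 4095, nat_lit 3442, nat_lit 3472,
  nat_lit 2037, nat_lit 3079, nat_lit 4380, nat_lit 2093, nat_lit 3312, nat_lit 2791, nat_lit 919,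
  nat_lit 2965, nat_lit 958, nat_lit 119, nat_lit 2817, nat_lit 3179, nat_lit 436, nat_lit 4659,
  nat_lit 1263, nat_lit 791, nat_lit 790, nat_lit 281, nat_lit 1085, nat_lit 2251, nat_lit 3381,
  nat_lit 1023, nat_lit 2054, nat_lit 3468, nat_lit 1741, nat_lit 3849, nat_lit 2373, nat_lit 1413,
  nat_lit 1900, nat_lit 2949, nat_lit 4427, nat_lit 3036, nat_lit 112, nat_lit 4523, nat_lit 4493,
  nat_lit 480, nat_lit 3030, nat_lit 139, nat_lit 1841, nat_lit 4032, nat_lit 1227, nat_lit 1453,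
  nat_lit 4290, nat_lit 2376, nat_lit 2378, nat_lit 3639, nat_lit 2049, nat_lit 2477, nat_lit 3494,
  nat_lit 1725, nat_lit 2030, nat_lit 3282, nat_lit 382, nat_lit 411, nat_lit 4421, nat_lit 3198,
  nat_lit 2914, nat_lit 2646, nat_lit 241, nat_lit 3305, nat_lit 1554, nat_lit 2879, nat_lit 3311,
  nat_lit 4178, nat_lit 3950, nat_lit 4408, nat_lit 1470, nat_lit 2695, nat_lit 2977, nat_lit 1778,
  nat_lit 2135, nat_lit 384, nat_lit 1144, nat_lit 512, nat_lit 603, nat_lit 72, nat_lit 755,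
  nat_lit 605, nat_lit 217, nat_lit 2476, nat_lit 2714, nat_lit 4015, nat_lit 443, nat_lit 786,
  nat_lit 810, nat_lit 2114, nat_lit 272, nat_lit 1086, nat_lit 2337, nat_lit 4646, nat_lit 378,
  nat_lit 4836, nat_lit 1115, nat_lit 2763, nat_lit 3618, nat_lit 3170, nat_lit 2917, nat_lit 759,
  nat_lit 740, nat_lit 739, nat_lit 756, nat_lit 3230, nat_lit 875, nat_lit 874, nat_lit 741,
  nat_lit 2368, nat_lit 3262, nat_lit 4703, nat_lit 2004, nat_lit 1572, nat_lit 3017, nat_lit 4200,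
  nat_lit 2194, nat_lit 3052, nat_lit 4070, nat_lit 2308, nat_lit 1092, nat_lit 628, nat_lit 141,
  nat_lit 3564, nat_lit 539, nat_lit 83, nat_lit 4593, nat_lit 143, nat_lit 528, nat_lit 5005,
  nat_lit 2586, nat_lit 4816, nat_lit 93, nat_lit 422, nat_lit 3559, nat_lit 4786, nat_lit 867,
  nat_lit 220, nat_lit 300, nat_lit 1920, nat_lit 872, nat_lit 1003, nat_lit 2437, nat_lit 2691,
  nat_lit 3866, nat_lit 4773, nat_lit 2312, nat_lit 1788, nat_lit 3908, nat_lit 657, nat_lit 1760,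
  nat_lit 3214, nat_lit 1906, nat_lit 261, nat_lit 3856, nat_lit 2279, nat_lit 3976, nat_lit 4165,
  nat_lit 1379, nat_lit 2303, nat_lit 1609, nat_lit 4801, nat_lit 133, nat_lit 545, nat_lit 2409,
  nat_lit 629, nat_lit 94, nat_lit 288, nat_lit 1917, nat_lit 2286, nat_lit 2582, nat_lit 1439,
  nat_lit 3411, nat_lit 2306, nat_lit 1528, nat_lit 2398, nat_lit 4893, nat_lit 653, nat_lit 652,
  nat_lit 3986, nat_lit 1409, nat_lit 3303, nat_lit 3416, nat_lit 252, nat_lit 1809, nat_lit 4011,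
  nat_lit 254, nat_lit 355, nat_lit 1180, nat_lit 2589, nat_lit 3113, nat_lit 1477, nat_lit 109,
  nat_lit 3478, nat_lit 3727, nat_lit 2210, nat_lit 651, nat_lit 646, nat_lit 3679, nat_lit 4007,
  nat_lit 1237, nat_lit 2792, nat_lit 4709, nat_lit 650, nat_lit 3271, nat_lit 3680, nat_lit 1399,
  nat_lit 3673, nat_lit 3959, nat_lit 2431, nat_lit 1186, nat_lit 1002, nat_lit 41, nat_lit 1173,
  nat_lit 1034, nat_lit 4989, nat_lit 4988, nat_lit 3566, nat_lit 772, nat_lit 2745, nat_lit 242,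
  nat_lit 823, nat_lit 2788, nat_lit 2715, nat_lit 75, nat_lit 1467, nat_lit 522, nat_lit 3761,
  nat_lit 4243, nat_lit 3682, nat_lit 3884, nat_lit 385, nat_lit 380, nat_lit 745, nat_lit 4608,
  nat_lit 4648, nat_lit 2732, nat_lit 2388, nat_lit 1257, nat_lit 3942, nat_lit 2239, nat_lit 4800,
  nat_lit 3234, nat_lit 2383, nat_lit 4766, nat_lit 3597, nat_lit 1875, nat_lit 171, nat_lit 2392,
  nat_lit 321, nat_lit 1928, nat_lit 2851, nat_lit 1449, nat_lit 1147, nat_lit 3183, nat_lit 1588,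
  nat_lit 4334, nat_lit 4578, nat_lit 2895, nat_lit 4390, nat_lit 2523, nat_lit 4294, nat_lit 575,
  nat_lit 576, nat_lit 1772, nat_lit 2153, nat_lit 3779, nat_lit 752, nat_lit 2449, nat_lit 1152,
  nat_lit 419, nat_lit 2182, nat_lit 1193, nat_lit 3676, nat_lit 873, nat_lit 2074, nat_lit 2774,
  nat_lit 1265, nat_lit 1687, nat_lit 3320, nat_lit 2181, nat_lit 1310, nat_lit 3390, nat_lit 1683,
  nat_lit 3122, nat_lit 425, nat_lit 4515, nat_lit 3306, nat_lit 742, nat_lit 2007, nat_lit 4562,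
  nat_lit 1367, nat_lit 3194, nat_lit 2868, nat_lit 1438, nat_lit 4437, nat_lit 691, nat_lit 2426,
  nat_lit 4180, nat_lit 82, nat_lit 2826, nat_lit 1005, nat_lit 2901, nat_lit 3292, nat_lit 2768,
  nat_lit 3503, nat_lit 4303, nat_lit 1569, nat_lit 4318, nat_lit 246, nat_lit 3803, nat_lit 4806,
  nat_lit 4826, nat_lit 615, nat_lit 2550, nat_lit 91, nat_lit 2927, nat_lit 2491, nat_lit 4572,
  nat_lit 4670, nat_lit 3960, nat_lit 2019, nat_lit 1659, nat_lit 1831, nat_lit 2473, nat_lit 2197,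
  nat_lit 1553, nat_lit 1357, nat_lit 4747, nat_lit 5023, nat_lit 3386, nat_lit 2084, nat_lit 2978,
  nat_lit 972, nat_lit 3748, nat_lit 4984, nat_lit 3358, nat_lit 2069, nat_lit 2344, nat_lit 2323,
  nat_lit 1198, nat_lit 3057, nat_lit 1994, nat_lit 985, nat_lit 766, nat_lit 1714, nat_lit 1974,
  nat_lit 4627, nat_lit 2125, nat_lit 1375, nat_lit 2175, nat_lit 4234, nat_lit 1140, nat_lit 554,
  nat_lit 920, nat_lit 612, nat_lit 577, nat_lit 4469, nat_lit 952, nat_lit 676, nat_lit 153,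
  nat_lit 3100, nat_lit 2270, nat_lit 3957, nat_lit 2527, nat_lit 1794, nat_lit 2952, nat_lit 4575,
  nat_lit 360, nat_lit 3309, nat_lit 5006, nat_lit 4978, nat_lit 2076, nat_lit 4756, nat_lit 4918,
  nat_lit 2512, nat_lit 4644, nat_lit 2133, nat_lit 538, nat_lit 1658, nat_lit 2372, nat_lit 2839,
  nat_lit 424, nat_lit 4222, nat_lit 4477, nat_lit 2645, nat_lit 527, nat_lit 784, nat_lit 1025,
  nat_lit 3855, nat_lit 2427, nat_lit 3778, nat_lit 4205, nat_lit 4737, nat_lit 1124, nat_lit 2250,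
  nat_lit 2028, nat_lit 4542, nat_lit 3213, nat_lit 1109, nat_lit 4326, nat_lit 1729, nat_lit 524,
  nat_lit 3227, nat_lit 4268, nat_lit 4885, nat_lit 2305, nat_lit 3463, nat_lit 4705, nat_lit 3996,
  nat_lit 1585, nat_lit 4031, nat_lit 4615, nat_lit 3006, nat_lit 3840, nat_lit 2419, nat_lit 175,
  nat_lit 4458, nat_lit 3901, nat_lit 3684, nat_lit 1269, nat_lit 4470, nat_lit 3742, nat_lit 2659,
  nat_lit 1142, nat_lit 3462, nat_lit 2159, nat_lit 905, nat_lit 1862, nat_lit 2349, nat_lit 1800,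
  nat_lit 1215, nat_lit 1151, nat_lit 3854, nat_lit 3169, nat_lit 2606, nat_lit 1593, nat_lit 1039,
  nat_lit 927, nat_lit 803, nat_lit 564, nat_lit 1161, nat_lit 668, nat_lit 762, nat_lit 667,
  nat_lit 270, nat_lit 4206, nat_lit 3401, nat_lit 1060, nat_lit 1482, nat_lit 529, nat_lit 1762,
  nat_lit 4721, nat_lit 3678, nat_lit 638, nat_lit 2077, nat_lit 438, nat_lit 4683, nat_lit 4177,
  nat_lit 2547, nat_lit 1798, nat_lit 2115, nat_lit 3087, nat_lit 1796, nat_lit 1577, nat_lit 4781,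
  nat_lit 4035, nat_lit 1084, nat_lit 2218, nat_lit 3018, nat_lit 3370, nat_lit 1942, nat_lit 1820,
  nat_lit 572, nat_lit 939, nat_lit 2335, nat_lit 2838, nat_lit 1684, nat_lit 2986, nat_lit 3936,
  nat_lit 2829, nat_lit 3853, nat_lit 3873, nat_lit 3948, nat_lit 1968, nat_lit 956, nat_lit 1535,
  nat_lit 1638, nat_lit 3333, nat_lit 2632, nat_lit 3406, nat_lit 3718, nat_lit 1312, nat_lit 2679,
  nat_lit 2070, nat_lit 2778, nat_lit 1324, nat_lit 3715, nat_lit 3891, nat_lit 3623, nat_lit 374,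
  nat_lit 992, nat_lit 556, nat_lit 1610, nat_lit 2358, nat_lit 2051, nat_lit 4227, nat_lit 2413,
  nat_lit 2905, nat_lit 880, nat_lit 1329, nat_lit 594, nat_lit 758, nat_lit 3112, nat_lit 2785,
  nat_lit 4087, nat_lit 415, nat_lit 897, nat_lit 2859, nat_lit 4198, nat_lit 1083, nat_lit 366,
  nat_lit 2636, nat_lit 884, nat_lit 449, nat_lit 1757, nat_lit 3049, nat_lit 463, nat_lit 1388,
  nat_lit 1337, nat_lit 614, nat_lit 700, nat_lit 2410, nat_lit 2811, nat_lit 2904, nat_lit 4788,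
  nat_lit 2058, nat_lit 547, nat_lit 789, nat_lit 811, nat_lit 4328, nat_lit 4980, nat_lit 1581,
  nat_lit 3025, nat_lit 2958, nat_lit 2212, nat_lit 3387, nat_lit 1930, nat_lit 4845, nat_lit 4043,
  nat_lit 3487, nat_lit 205, nat_lit 2692, nat_lit 3424, nat_lit 2456, nat_lit 1502, nat_lit 3340,
  nat_lit 1261, nat_lit 1407, nat_lit 3762, nat_lit 990, nat_lit 2440, nat_lit 3153, nat_lit 3874,
  nat_lit 3970, nat_lit 3905, nat_lit 4498, nat_lit 550, nat_lit 731, nat_lit 3120, nat_lit 2465,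
  nat_lit 2174, nat_lit 3847, nat_lit 2989, nat_lit 4112, nat_lit 915, nat_lit 3160, nat_lit 4651,
  nat_lit 25, nat_lit 4506, nat_lit 465, nat_lit 204, nat_lit 87, nat_lit 2548, nat_lit 5031,
  nat_lit 618, nat_lit 3293, nat_lit 3351, nat_lit 2521, nat_lit 2241, nat_lit 1131, nat_lit 2460,
  nat_lit 3943, nat_lit 4839, nat_lit 475, nat_lit 4418, nat_lit 1939, nat_lit 3377, nat_lit 210,
  nat_lit 494, nat_lit 838, nat_lit 234, nat_lit 3073, nat_lit 4589, nat_lit 1895, nat_lit 1211,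
  nat_lit 1051, nat_lit 3951, nat_lit 2644, nat_lit 1657, nat_lit 4439, nat_lit 4274, nat_lit 4930,
  nat_lit 2752, nat_lit 3642, nat_lit 4170, nat_lit 2973, nat_lit 647, nat_lit 3993, nat_lit 795,
  nat_lit 3791, nat_lit 1519, nat_lit 69, nat_lit 31, nat_lit 337, nat_lit 3633, nat_lit 1465,
  nat_lit 3757, nat_lit 771, nat_lit 3949, nat_lit 4149, nat_lit 1929, nat_lit 2578, nat_lit 2553,
  nat_lit 85, nat_lit 2575, nat_lit 1110, nat_lit 1248, nat_lit 5068, nat_lit 3659, nat_lit 648,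
  nat_lit 1887, nat_lit 4735, nat_lit 4399, nat_lit 1988, nat_lit 2831, nat_lit 1685, nat_lit 3250,
  nat_lit 918, nat_lit 815, nat_lit 3403, nat_lit 4335, nat_lit 386, nat_lit 3664, nat_lit 1205,
  nat_lit 375, nat_lit 3005, nat_lit 1102, nat_lit 4478, nat_lit 665, nat_lit 1170, nat_lit 1402,
  nat_lit 2245, nat_lit 666, nat_lit 2716, nat_lit 4650, nat_lit 1201, nat_lit 774, nat_lit 2699,
  nat_lit 1121, nat_lit 4185, nat_lit 2345, nat_lit 661, nat_lit 2874, nat_lit 2738, nat_lit 2552,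
  nat_lit 53, nat_lit 1289, nat_lit 1600, nat_lit 2453, nat_lit 490, nat_lit 1858, nat_lit 4713,
  nat_lit 4299, nat_lit 2741, nat_lit 656, nat_lit 2417, nat_lit 1859, nat_lit 4858, nat_lit 4394,
  nat_lit 3983, nat_lit 1661, nat_lit 2852, nat_lit 2647, nat_lit 3575, nat_lit 725, nat_lit 4082,
  nat_lit 2029, nat_lit 1093, nat_lit 4669, nat_lit 1044, nat_lit 294, nat_lit 156, nat_lit 383,
  nat_lit 2020, nat_lit 2234, nat_lit 3241, nat_lit 1854, nat_lit 4828, nat_lit 1786, nat_lit 4630,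
  nat_lit 4898, nat_lit 3610, nat_lit 2443, nat_lit 3868, nat_lit 4838, nat_lit 1878, nat_lit 4247,
  nat_lit 3518, nat_lit 3354, nat_lit 2684, nat_lit 2387, nat_lit 1234, nat_lit 3734, nat_lit 4513,
  nat_lit 4483, nat_lit 4490, nat_lit 4660, nat_lit 3765, nat_lit 4738, nat_lit 4122, nat_lit 4465,
  nat_lit 3186, nat_lit 4900, nat_lit 4849, nat_lit 3069, nat_lit 5045, nat_lit 5060, nat_lit 4983,
  nat_lit 4982, nat_lit 4502, nat_lit 1352, nat_lit 4663, nat_lit 5016, nat_lit 4998, nat_lit 4420,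
  nat_lit 1787, nat_lit 1026, nat_lit 3631, nat_lit 3956, nat_lit 2814, nat_lit 2667, nat_lit 1890,
  nat_lit 2421, nat_lit 1715, nat_lit 1433, nat_lit 3536, nat_lit 2331, nat_lit 902, nat_lit 713,
  nat_lit 711, nat_lit 2187, nat_lit 2893, nat_lit 2040, nat_lit 4168, nat_lit 2166, nat_lit 1544,
  nat_lit 2095, nat_lit 4169, nat_lit 4023, nat_lit 2346, nat_lit 4846, nat_lit 1472, nat_lit 2503,
  nat_lit 1479, nat_lit 3348, nat_lit 710, nat_lit 712, nat_lit 421, nat_lit 59, nat_lit 699,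
  nat_lit 4557, nat_lit 1221, nat_lit 3725, nat_lit 4021, nat_lit 500, nat_lit 4132, nat_lit 2235,
  nat_lit 1821, nat_lit 4974, nat_lit 3301, nat_lit 4172, nat_lit 1425, nat_lit 553, nat_lit 4289,
  nat_lit 2364, nat_lit 1972, nat_lit 1807, nat_lit 2280, nat_lit 3560, nat_lit 2455, nat_lit 2314,
  nat_lit 2291, nat_lit 2313, nat_lit 2394, nat_lit 3349, nat_lit 4202, nat_lit 4902, nat_lit 5008,
  nat_lit 35, nat_lit 1967, nat_lit 3207, nat_lit 1702, nat_lit 1130, nat_lit 432, nat_lit 224,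
  nat_lit 5065, nat_lit 223, nat_lit 3743, nat_lit 3118, nat_lit 3471, nat_lit 3336, nat_lit 2097,
  nat_lit 728, nat_lit 219, nat_lit 6, nat_lit 334, nat_lit 389, nat_lit 4917, nat_lit 4775,
  nat_lit 229, nat_lit 903, nat_lit 4310, nat_lit 2057, nat_lit 408, nat_lit 364, nat_lit 333,
  nat_lit 2650, nat_lit 4136, nat_lit 2315, nat_lit 370, nat_lit 2514, nat_lit 493, nat_lit 2921,
  nat_lit 3452, nat_lit 357, nat_lit 105, nat_lit 339, nat_lit 473, nat_lit 247, nat_lit 9,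
  nat_lit 2700, nat_lit 4579, nat_lit 4558, nat_lit 5007, nat_lit 4862, nat_lit 4910, nat_lit 870,
  nat_lit 365, nat_lit 5, nat_lit 2139, nat_lit 3219, nat_lit 1693, nat_lit 2158, nat_lit 4233,
  nat_lit 264, nat_lit 3736, nat_lit 4269, nat_lit 2518, nat_lit 4935, nat_lit 904, nat_lit 4866,
  nat_lit 274, nat_lit 8, nat_lit 4125, nat_lit 4555, nat_lit 3585, nat_lit 871, nat_lit 4135,
  nat_lit 4751, nat_lit 2036, nat_lit 2896, nat_lit 4835, nat_lit 3353, nat_lit 5066, nat_lit 4886,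
  nat_lit 3350, nat_lit 1997, nat_lit 3276, nat_lit 2865, nat_lit 499, nat_lit 1277, nat_lit 1534,
  nat_lit 4896, nat_lit 5054, nat_lit 4134, nat_lit 3591, nat_lit 2353, nat_lit 5024, nat_lit 1527,
  nat_lit 4391, nat_lit 2980, nat_lit 1197, nat_lit 3174, nat_lit 1101, nat_lit 3251, nat_lit 3532,
  nat_lit 3084, nat_lit 1242, nat_lit 1126, nat_lit 794, nat_lit 4091, nat_lit 1849, nat_lit 1934,
  nat_lit 1938, nat_lit 1309, nat_lit 706, nat_lit 4474, nat_lit 4599, nat_lit 2963, nat_lit 2082,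
  nat_lit 596, nat_lit 1038, nat_lit 2254, nat_lit 3677, nat_lit 4643, nat_lit 4795, nat_lit 1174,
  nat_lit 1300, nat_lit 1716, nat_lit 938, nat_lit 582, nat_lit 4673, nat_lit 4933, nat_lit 549,
  nat_lit 3331, nat_lit 548, nat_lit 57, nat_lit 63, nat_lit 3038, nat_lit 3922, nat_lit 4376,
  nat_lit 2943, nat_lit 3744, nat_lit 1753, nat_lit 2724, nat_lit 1294, nat_lit 4133, nat_lit 4361,
  nat_lit 1877, nat_lit 1557, nat_lit 3026, nat_lit 1587, nat_lit 4468, nat_lit 132, nat_lit 1222,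
  nat_lit 4957, nat_lit 3429, nat_lit 4155, nat_lit 2760, nat_lit 3561, nat_lit 3325, nat_lit 2630,
  nat_lit 2878, nat_lit 2955, nat_lit 4341, nat_lit 3308, nat_lit 4215, nat_lit 4148, nat_lit 863,
  nat_lit 2976, nat_lit 2451, nat_lit 3200, nat_lit 3819, nat_lit 1480, nat_lit 3845, nat_lit 2489,
  nat_lit 3827, nat_lit 3699, nat_lit 4484, nat_lit 4075, nat_lit 2141, nat_lit 3600, nat_lit 2399,
  nat_lit 487, nat_lit 488, nat_lit 4945, nat_lit 2593, nat_lit 4055, nat_lit 4951, nat_lit 809,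
  nat_lit 4784, nat_lit 5056, nat_lit 4211, nat_lit 503, nat_lit 4906, nat_lit 4074, nat_lit 3045,
  nat_lit 2320, nat_lit 4118, nat_lit 4119, nat_lit 5057, nat_lit 1179, nat_lit 3665, nat_lit 2202,
  nat_lit 2470, nat_lit 2907, nat_lit 2767, nat_lit 4076, nat_lit 1671, nat_lit 2154, nat_lit 4188,
  nat_lit 1509, nat_lit 1993, nat_lit 1354, nat_lit 4396, nat_lit 4629, nat_lit 1423, nat_lit 1018,
  nat_lit 2063, nat_lit 2930, nat_lit 4103, nat_lit 2987, nat_lit 3843, nat_lit 2173, nat_lit 1592,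
  nat_lit 4531, nat_lit 4529, nat_lit 1713, nat_lit 3695, nat_lit 3398, nat_lit 4815, nat_lit 2562,
  nat_lit 2329, nat_lit 1962, nat_lit 3626, nat_lit 2103, nat_lit 4040, nat_lit 2369, nat_lit 3594,
  nat_lit 4466, nat_lit 3457, nat_lit 4322, nat_lit 4388, nat_lit 4346, nat_lit 2386, nat_lit 2570,
  nat_lit 1868, nat_lit 4434, nat_lit 4242, nat_lit 3068, nat_lit 4865, nat_lit 3530, nat_lit 2087,
  nat_lit 2903, nat_lit 3445, nat_lit 1951, nat_lit 3835, nat_lit 1691, nat_lit 959, nat_lit 3197,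
  nat_lit 2560, nat_lit 3756, nat_lit 448, nat_lit 2278, nat_lit 3838, nat_lit 4259, nat_lit 3376,
  nat_lit 2909, nat_lit 211, nat_lit 191, nat_lit 201, nat_lit 4823, nat_lit 3636, nat_lit 1531,
  nat_lit 2024, nat_lit 2758, nat_lit 4301, nat_lit 2215, nat_lit 2179, nat_lit 3264, nat_lit 1706,
  nat_lit 2820, nat_lit 2587, nat_lit 3573, nat_lit 1232, nat_lit 4829, nat_lit 4864, nat_lit 20,
  nat_lit 209, nat_lit 3644, nat_lit 1728, nat_lit 4213, nat_lit 2316, nat_lit 4183, nat_lit 1079,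
  nat_lit 1865, nat_lit 4753, nat_lit 4940, nat_lit 317, nat_lit 3109, nat_lit 3982, nat_lit 3834,
  nat_lit 2572, nat_lit 1808, nat_lit 1431, nat_lit 1252, nat_lit 1259, nat_lit 1491, nat_lit 4441,
  nat_lit 3007, nat_lit 1576, nat_lit 2596, nat_lit 2806, nat_lit 1578, nat_lit 3188, nat_lit 2956,
  nat_lit 1559, nat_lit 3712, nat_lit 1641, nat_lit 3009, nat_lit 3491, nat_lit 4189, nat_lit 2371,
  nat_lit 2385, nat_lit 1336, nat_lit 3563, nat_lit 3693, nat_lit 2146, nat_lit 4639, nat_lit 4249,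
  nat_lit 4062, nat_lit 2762, nat_lit 3405, nat_lit 3296, nat_lit 649, nat_lit 3162, nat_lit 4594,
  nat_lit 3687, nat_lit 4688, nat_lit 4270, nat_lit 807, nat_lit 552, nat_lit 2576, nat_lit 2910,
  nat_lit 2026, nat_lit 3050, nat_lit 1063, nat_lit 1064, nat_lit 3133, nat_lit 3832, nat_lit 1292,
  nat_lit 4912, nat_lit 4911, nat_lit 1206, nat_lit 1207, nat_lit 999, nat_lit 998, nat_lit 1358,
  nat_lit 1750, nat_lit 1863, nat_lit 3396, nat_lit 1247, nat_lit 2894, nat_lit 2824, nat_lit 4037,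
  nat_lit 4921, nat_lit 4633, nat_lit 1936, nat_lit 2009, nat_lit 2164, nat_lit 2226, nat_lit 4489,
  nat_lit 4349, nat_lit 2498, nat_lit 3319, nat_lit 1950, nat_lit 4232, nat_lit 4166, nat_lit 4348,
  nat_lit 3818, nat_lit 4363, nat_lit 1228, nat_lit 3288, nat_lit 1171, nat_lit 1925, nat_lit 2263,
  nat_lit 2142, nat_lit 4050, nat_lit 4044, nat_lit 3521, nat_lit 1203, nat_lit 1392, nat_lit 4306,
  nat_lit 4339, nat_lit 2475, nat_lit 1512, nat_lit 3433, nat_lit 1700, nat_lit 1727, nat_lit 1105,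
  nat_lit 1065, nat_lit 4244, nat_lit 1818, nat_lit 4350, nat_lit 4811, nat_lit 1606, nat_lit 2090,
  nat_lit 1015, nat_lit 1372, nat_lit 1630, nat_lit 4068, nat_lit 3895, nat_lit 1108, nat_lit 3582,
  nat_lit 3941, nat_lit 2287, nat_lit 4934, nat_lit 1514, nat_lit 2707, nat_lit 2942, nat_lit 2048,
  nat_lit 4137, nat_lit 3446, nat_lit 2696, nat_lit 3769, nat_lit 3772, nat_lit 3302, nat_lit 1103,
  nat_lit 4276, nat_lit 2843, nat_lit 1582, nat_lit 1769, nat_lit 3812, nat_lit 427, nat_lit 1082,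
  nat_lit 799, nat_lit 1801, nat_lit 2332, nat_lit 2119, nat_lit 346, nat_lit 882, nat_lit 43,
  nat_lit 117, nat_lit 630, nat_lit 5025, nat_lit 2025, nat_lit 3385, nat_lit 2010, nat_lit 3580,
  nat_lit 1157, nat_lit 4585, nat_lit 4628, nat_lit 4459, nat_lit 2068, nat_lit 237, nat_lit 893,
  nat_lit 2693, nat_lit 2222, nat_lit 3674, nat_lit 1816, nat_lit 3046, nat_lit 2889, nat_lit 1106,
  nat_lit 2985, nat_lit 4944, nat_lit 2127, nat_lit 1947, nat_lit 4595, nat_lit 2610, nat_lit 2132,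
  nat_lit 3921, nat_lit 1024, nat_lit 1408, nat_lit 1048, nat_lit 2099, nat_lit 1922, nat_lit 4194,
  nat_lit 1043, nat_lit 3662, nat_lit 3663, nat_lit 1488, nat_lit 3667, nat_lit 3277, nat_lit 643,
  nat_lit 2284, nat_lit 3797, nat_lit 3459, nat_lit 4524, nat_lit 4063, nat_lit 3551, nat_lit 4867,
  nat_lit 4870, nat_lit 4567, nat_lit 4966, nat_lit 3898, nat_lit 1977, nat_lit 3008, nat_lit 3671,
  nat_lit 4819, nat_lit 3356, nat_lit 1059, nat_lit 3703, nat_lit 1802, nat_lit 2446, nat_lit 812,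
  nat_lit 2109, nat_lit 1660, nat_lit 1605, nat_lit 1921, nat_lit 3925, nat_lit 3092, nat_lit 1429,
  nat_lit 4717, nat_lit 4025, nat_lit 3240, nat_lit 2390, nat_lit 4802, nat_lit 3912, nat_lit 4661,
  nat_lit 718, nat_lit 2855, nat_lit 3443, nat_lit 2059, nat_lit 1795, nat_lit 4778, nat_lit 2311,
  nat_lit 4854, nat_lit 4426, nat_lit 4312, nat_lit 2891, nat_lit 4254, nat_lit 3619, nat_lit 822,
  nat_lit 3378, nat_lit 2027, nat_lit 3318, nat_lit 613, nat_lit 816, nat_lit 1882, nat_lit 3074,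
  nat_lit 439, nat_lit 820, nat_lit 4662, nat_lit 2452, nat_lit 3460, nat_lit 881, nat_lit 44,
  nat_lit 269, nat_lit 955, nat_lit 916, nat_lit 2743, nat_lit 37, nat_lit 4284, nat_lit 917,
  nat_lit 3364, nat_lit 1314, nat_lit 2150, nat_lit 2990, nat_lit 1238, nat_lit 1223, nat_lit 908,
  nat_lit 2619, nat_lit 4440, nat_lit 595, nat_lit 1353, nat_lit 2148, nat_lit 1770, nat_lit 4541,
  nat_lit 3402, nat_lit 3801, nat_lit 3892, nat_lit 1122, nat_lit 2264, nat_lit 3565, nat_lit 306,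
  nat_lit 29, nat_lit 642, nat_lit 305, nat_lit 130, nat_lit 1721, nat_lit 4423, nat_lit 1703,
  nat_lit 641, nat_lit 134, nat_lit 1720, nat_lit 2718, nat_lit 4433, nat_lit 235, nat_lit 4327,
  nat_lit 1267, nat_lit 19, nat_lit 3595, nat_lit 279, nat_lit 2846, nat_lit 1046, nat_lit 158,
  nat_lit 4649, nat_lit 51, nat_lit 55, nat_lit 1871, nat_lit 52, nat_lit 34, nat_lit 2180,
  nat_lit 509, nat_lit 3691, nat_lit 2899, nat_lit 188, nat_lit 186, nat_lit 510, nat_lit 192,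
  nat_lit 856, nat_lit 106, nat_lit 309, nat_lit 3588, nat_lit 2863, nat_lit 660, nat_lit 1410,
  nat_lit 4225, nat_lit 2988, nat_lit 2223, nat_lit 2442, nat_lit 4378, nat_lit 3531, nat_lit 1319,
  nat_lit 644, nat_lit 1889, nat_lit 297, nat_lit 1017, nat_lit 453, nat_lit 296, nat_lit 1214,
  nat_lit 23, nat_lit 3763, nat_lit 1768, nat_lit 896, nat_lit 193, nat_lit 857, nat_lit 3272,
  nat_lit 3681, nat_lit 2129, nat_lit 611, nat_lit 1187, nat_lit 839, nat_lit 562, nat_lit 1828,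
  nat_lit 1903, nat_lit 2156, nat_lit 4769, nat_lit 3522, nat_lit 2152, nat_lit 1575, nat_lit 4763,
  nat_lit 4657, nat_lit 1746, nat_lit 715, nat_lit 81, nat_lit 1284, nat_lit 3027, nat_lit 2598,
  nat_lit 1393, nat_lit 3735, nat_lit 3397, nat_lit 4995, nat_lit 1291, nat_lit 4385, nat_lit 4410,
  nat_lit 4204, nat_lit 1571, nat_lit 3393, nat_lit 2581, nat_lit 989, nat_lit 2178, nat_lit 692,
  nat_lit 2822, nat_lit 3862, nat_lit 2497, nat_lit 2231, nat_lit 3992, nat_lit 793, nat_lit 2854,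
  nat_lit 748, nat_lit 485, nat_lit 287, nat_lit 62, nat_lit 284, nat_lit 249, nat_lit 2911,
  nat_lit 1639, nat_lit 3117, nat_lit 1755, nat_lit 2770, nat_lit 776, nat_lit 312, nat_lit 2,
  nat_lit 3773, nat_lit 1825, nat_lit 2832, nat_lit 4416, nat_lit 2039, nat_lit 3833, nat_lit 3423,
  nat_lit 1490, nat_lit 3826, nat_lit 393, nat_lit 3076, nat_lit 1255, nat_lit 3453, nat_lit 3470,
  nat_lit 392, nat_lit 2348, nat_lit 3289, nat_lit 1404, nat_lit 2915, nat_lit 1014, nat_lit 2224,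
  nat_lit 1281, nat_lit 362, nat_lit 405, nat_lit 944, nat_lit 4855, nat_lit 971, nat_lit 70,
  nat_lit 1517, nat_lit 3991, nat_lit 982, nat_lit 4710, nat_lit 1676, nat_lit 3203, nat_lit 1216,
  nat_lit 2835, nat_lit 3903, nat_lit 3420, nat_lit 3216, nat_lit 4029, nat_lit 1074, nat_lit 2177,
  nat_lit 2261, nat_lit 2941, nat_lit 2883, nat_lit 4755, nat_lit 1599, nat_lit 3881, nat_lit 2507,
  nat_lit 84, nat_lit 73, nat_lit 376, nat_lit 4623, nat_lit 2193, nat_lit 4602, nat_lit 2136,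
  nat_lit 1189, nat_lit 636, nat_lit 685, nat_lit 683, nat_lit 4741, nat_lit 1976, nat_lit 4342,
  nat_lit 977, nat_lit 4099, nat_lit 1617, nat_lit 2134, nat_lit 2238, nat_lit 2447, nat_lit 4336,
  nat_lit 1738, nat_lit 2694, nat_lit 202, nat_lit 3287, nat_lit 3359, nat_lit 4552, nat_lit 1627,
  nat_lit 3852, nat_lit 1233, nat_lit 3650, nat_lit 1271, nat_lit 987, nat_lit 58, nat_lit 1767,
  nat_lit 225, nat_lit 658, nat_lit 4968, nat_lit 2607, nat_lit 2104, nat_lit 4712, nat_lit 1813,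
  nat_lit 3458, nat_lit 3940, nat_lit 1573, nat_lit 1843, nat_lit 2425, nat_lit 616, nat_lit 437,
  nat_lit 484, nat_lit 1297, nat_lit 1698, nat_lit 273, nat_lit 114, nat_lit 732, nat_lit 747,
  nat_lit 1894, nat_lit 1697, nat_lit 291, nat_lit 155, nat_lit 1823, nat_lit 2130, nat_lit 1437,
  nat_lit 3606, nat_lit 1091, nat_lit 3690, nat_lit 1123, nat_lit 3574, nat_lit 2457, nat_lit 4695,
  nat_lit 3543, nat_lit 3542, nat_lit 924, nat_lit 1464, nat_lit 1071, nat_lit 4482, nat_lit 2003,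
  nat_lit 4667, nat_lit 1067, nat_lit 1345, nat_lit 4481, nat_lit 946, nat_lit 3330, nat_lit 3537,
  nat_lit 4875, nat_lit 4729, nat_lit 4033, nat_lit 2966, nat_lit 4508, nat_lit 2169, nat_lit 1416,
  nat_lit 1303, nat_lit 3897, nat_lit 2281, nat_lit 4428, nat_lit 4438, nat_lit 2190, nat_lit 4006,
  nat_lit 1932, nat_lit 1959, nat_lit 2016, nat_lit 1766, nat_lit 2929, nat_lit 1567, nat_lit 1646,
  nat_lit 2031, nat_lit 3380, nat_lit 1670, nat_lit 3534, nat_lit 4337, nat_lit 2283, nat_lit 2703,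
  nat_lit 5029, nat_lit 4580, nat_lit 3374, nat_lit 4671, nat_lit 4236, nat_lit 1776, nat_lit 4285,
  nat_lit 1805, nat_lit 4837, nat_lit 3028, nat_lit 1677, nat_lit 4597, nat_lit 111, nat_lit 2594,
  nat_lit 3432, nat_lit 394, nat_lit 181, nat_lit 4174, nat_lit 468, nat_lit 4472, nat_lit 3475,
  nat_lit 2176, nat_lit 2370, nat_lit 3933, nat_lit 4162, nat_lit 314, nat_lit 3215, nat_lit 4224,
  nat_lit 5043, nat_lit 1474, nat_lit 2412, nat_lit 3975, nat_lit 1120, nat_lit 4464, nat_lit 2092,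
  nat_lit 2827, nat_lit 2183, nat_lit 1155, nat_lit 359, nat_lit 513, nat_lit 1458, nat_lit 483,
  nat_lit 2609, nat_lit 3265, nat_lit 3373, nat_lit 3461, nat_lit 4210, nat_lit 4208, nat_lit 3635,
  nat_lit 3504, nat_lit 3806, nat_lit 4235, nat_lit 4987, nat_lit 1191, nat_lit 2276, nat_lit 2913,
  nat_lit 2638, nat_lit 3344, nat_lit 1709, nat_lit 4345, nat_lit 620, nat_lit 518, nat_lit 1874,
  nat_lit 2725, nat_lit 2165, nat_lit 4749, nat_lit 4687, nat_lit 2510, nat_lit 431, nat_lit 228,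
  nat_lit 1361, nat_lit 719, nat_lit 4564, nat_lit 433, nat_lit 2637, nat_lit 2275, nat_lit 2912,
  nat_lit 218, nat_lit 808, nat_lit 344, nat_lit 2289, nat_lit 4495, nat_lit 2014, nat_lit 3556,
  nat_lit 4551, nat_lit 1013, nat_lit 2652, nat_lit 347, nat_lit 625, nat_lit 164, nat_lit 4250,
  nat_lit 3632, nat_lit 3507, nat_lit 2651, nat_lit 4831, nat_lit 1455, nat_lit 1918, nat_lit 348,
  nat_lit 1781, nat_lit 3974, nat_lit 4895, nat_lit 4877, nat_lit 4090, nat_lit 2400, nat_lit 4014,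
  nat_lit 1236, nat_lit 2330, nat_lit 3576, nat_lit 1117, nat_lit 2384, nat_lit 4873, nat_lit 632,
  nat_lit 2277, nat_lit 2290, nat_lit 2184, nat_lit 2366, nat_lit 4246, nat_lit 2217, nat_lit 4809,
  nat_lit 4411, nat_lit 3808, nat_lit 4018, nat_lit 2919, nat_lit 2996, nat_lit 2781, nat_lit 3498,
  nat_lit 4817, nat_lit 3479, nat_lit 2185, nat_lit 2380, nat_lit 3965, nat_lit 4358, nat_lit 4977,
  nat_lit 4115, nat_lit 4120, nat_lit 2244, nat_lit 4901, nat_lit 4991, nat_lit 4379, nat_lit 4872,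
  nat_lit 1970, nat_lit 3555, nat_lit 3888, nat_lit 3971, nat_lit 3202, nat_lit 1200, nat_lit 3,
  nat_lit 377, nat_lit 5014, nat_lit 843, nat_lit 3268, nat_lit 1990, nat_lit 3434, nat_lit 2624,
  nat_lit 2573, nat_lit 2192, nat_lit 673, nat_lit 703, nat_lit 2396, nat_lit 3014, nat_lit 2351,
  nat_lit 3519, nat_lit 3770, nat_lit 3284, nat_lit 4804, nat_lit 3953, nat_lit 4389, nat_lit 2765,
  nat_lit 1239, nat_lit 3143, nat_lit 3144, nat_lit 4147, nat_lit 4287, nat_lit 1712, nat_lit 2209,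
  nat_lit 3978, nat_lit 4065, nat_lit 4543, nat_lit 1266, nat_lit 2144, nat_lit 2319, nat_lit 190,
  nat_lit 227, nat_lit 2704, nat_lit 1380, nat_lit 148, nat_lit 200, nat_lit 2002, nat_lit 11,
  nat_lit 1847, nat_lit 4309, nat_lit 21, nat_lit 92, nat_lit 3658, nat_lit 5028, nat_lit 778,
  nat_lit 259, nat_lit 4606, nat_lit 2742, nat_lit 714, nat_lit 216, nat_lit 215, nat_lit 2401,
  nat_lit 3739, nat_lit 3738, nat_lit 189, nat_lit 1213, nat_lit 28, nat_lit 1168, nat_lit 4238,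
  nat_lit 2111, nat_lit 194, nat_lit 991, nat_lit 3256, nat_lit 3456, nat_lit 13, nat_lit 4066,
  nat_lit 1489, nat_lit 4805, nat_lit 4798, nat_lit 4192, nat_lit 275, nat_lit 22, nat_lit 276,
  nat_lit 2259, nat_lit 1905, nat_lit 232, nat_lit 597, nat_lit 268, nat_lit 2515, nat_lit 2934,
  nat_lit 1836, nat_lit 3926, nat_lit 2682, nat_lit 3421, nat_lit 5015, nat_lit 4942, nat_lit 3337,
  nat_lit 2795, nat_lit 1867, nat_lit 4979, nat_lit 4237, nat_lit 3688, nat_lit 197, nat_lit 196,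
  nat_lit 4307, nat_lit 526, nat_lit 4143, nat_lit 4404, nat_lit 4340, nat_lit 1897, nat_lit 3830,
  nat_lit 267, nat_lit 244, nat_lit 255, nat_lit 258, nat_lit 3263, nat_lit 1346, nat_lit 1298,
  nat_lit 263, nat_lit 277, nat_lit 4783, nat_lit 4996, nat_lit 2163, nat_lit 659, nat_lit 1061,
  nat_lit 5061, nat_lit 3071, nat_lit 2065, nat_lit 1583, nat_lit 4694, nat_lit 1094, nat_lit 781,
  nat_lit 2669, nat_lit 806, nat_lit 1973, nat_lit 4128, nat_lit 4100, nat_lit 329, nat_lit 1743,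
  nat_lit 4534, nat_lit 3584, nat_lit 4255, nat_lit 672, nat_lit 498, nat_lit 2459, nat_lit 4706,
  nat_lit 4936, nat_lit 670, nat_lit 680, nat_lit 4282, nat_lit 3300, nat_lit 3090, nat_lit 2873,
  nat_lit 4352, nat_lit 4422, nat_lit 4535, nat_lit 4144, nat_lit 3717, nat_lit 3782, nat_lit 3299,
  nat_lit 558, nat_lit 3649, nat_lit 2342, nat_lit 2797, nat_lit 2478, nat_lit 1113, nat_lit 2204,
  nat_lit 1114, nat_lit 1241, nat_lit 4046, nat_lit 1892, nat_lit 4476, nat_lit 2886, nat_lit 1328,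
  nat_lit 1454, nat_lit 4797, nat_lit 3114, nat_lit 1036, nat_lit 1381, nat_lit 3722, nat_lit 3313,
  nat_lit 1285, nat_lit 3129, nat_lit 2529, nat_lit 4497, nat_lit 1332, nat_lit 3805, nat_lit 3829,
  nat_lit 289, nat_lit 3204, nat_lit 2436, nat_lit 1323, nat_lit 1325, nat_lit 3221, nat_lit 2972,
  nat_lit 1047, nat_lit 2953, nat_lit 4061, nat_lit 947, nat_lit 2199, nat_lit 4395, nat_lit 4617,
  nat_lit 1668, nat_lit 4640, nat_lit 2530, nat_lit 3865, nat_lit 1272, nat_lit 887, nat_lit 4190,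
  nat_lit 2296, nat_lit 66, nat_lit 4207, nat_lit 2292, nat_lit 4258, nat_lit 2355, nat_lit 4600,
  nat_lit 2947, nat_lit 3088, nat_lit 1422, nat_lit 4338, nat_lit 2864, nat_lit 3107, nat_lit 1460,
  nat_lit 3314, nat_lit 3115, nat_lit 4616, nat_lit 2670, nat_lit 4832, nat_lit 4311, nat_lit 3091,
  nat_lit 2726, nat_lit 2828, nat_lit 3973, nat_lit 4049, nat_lit 30, nat_lit 1452, nat_lit 578,
  nat_lit 2755, nat_lit 3758, nat_lit 2730, nat_lit 2937, nat_lit 2269, nat_lit 4757, nat_lit 3382,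
  nat_lit 3615, nat_lit 4151, nat_lit 2038, nat_lit 1359, nat_lit 3938, nat_lit 1360, nat_lit 1518,
  nat_lit 2155, nat_lit 4770, nat_lit 3999, nat_lit 1427, nat_lit 1740, nat_lit 1799, nat_lit 3360,
  nat_lit 2172, nat_lit 4080, nat_lit 2994, nat_lit 2081, nat_lit 1515, nat_lit 2416, nat_lit 3704,
  nat_lit 1923, nat_lit 1901, nat_lit 2486, nat_lit 4401, nat_lit 2011, nat_lit 3149, nat_lit 1050,
  nat_lit 214, nat_lit 2908, nat_lit 1908, nat_lit 4520, nat_lit 2900, nat_lit 2116, nat_lit 1924,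
  nat_lit 2819, nat_lit 2256, nat_lit 2663, nat_lit 1520, nat_lit 3437, nat_lit 1053, nat_lit 3004,
  nat_lit 4451, nat_lit 2505, nat_lit 1307, nat_lit 4304, nat_lit 3361, nat_lit 2072, nat_lit 3157,
  nat_lit 2566, nat_lit 2992, nat_lit 4887, nat_lit 1656, nat_lit 1417, nat_lit 2779, nat_lit 1181,
  nat_lit 4891, nat_lit 4403, nat_lit 1857, nat_lit 1815, nat_lit 1246, nat_lit 1366, nat_lit 1694,
  nat_lit 1814, nat_lit 3980, nat_lit 1384, nat_lit 1562, nat_lit 450, nat_lit 4612, nat_lit 2469,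
  nat_lit 4792, nat_lit 2642, nat_lit 2761, nat_lit 3103, nat_lit 2422, nat_lit 3055, nat_lit 2423,
  nat_lit 4052, nat_lit 4856, nat_lit 4446, nat_lit 4051, nat_lit 3620, nat_lit 3395, nat_lit 4431,
  nat_lit 3621, nat_lit 4435, nat_lit 3135, nat_lit 4692, nat_lit 4853, nat_lit 1176, nat_lit 2463,
  nat_lit 3278, nat_lit 2317, nat_lit 4354, nat_lit 2709, nat_lit 1133, nat_lit 3020, nat_lit 2151,
  nat_lit 3789, nat_lit 2237, nat_lit 3771, nat_lit 2110, nat_lit 2938, nat_lit 1468, nat_lit 3987,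
  nat_lit 1141, nat_lit 536, nat_lit 2923, nat_lit 3628, nat_lit 3930, nat_lit 3637, nat_lit 4429,
  nat_lit 3155, nat_lit 878, nat_lit 2588, nat_lit 994, nat_lit 2012, nat_lit 3334, nat_lit 2800,
  nat_lit 3549, nat_lit 2688, nat_lit 1689, nat_lit 2673, nat_lit 1679, nat_lit 2689, nat_lit 1148,
  nat_lit 1545, nat_lit 4057, nat_lit 3515, nat_lit 1530, nat_lit 4869, nat_lit 4533, nat_lit 4878,
  nat_lit 4939, nat_lit 3389, nat_lit 4537, nat_lit 4229, nat_lit 3516, nat_lit 3517, nat_lit 3512,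
  nat_lit 3060, nat_lit 1073, nat_lit 2168, nat_lit 3040, nat_lit 2262, nat_lit 3774, nat_lit 2558,
  nat_lit 1286, nat_lit 1774, nat_lit 3483, nat_lit 3924, nat_lit 440, nat_lit 684, nat_lit 4171,
  nat_lit 1485, nat_lit 910, nat_lit 1037, nat_lit 1744, nat_lit 3872, nat_lit 1011, nat_lit 4272,
  nat_lit 2574, nat_lit 1498, nat_lit 165, nat_lit 3108, nat_lit 2782, nat_lit 3783, nat_lit 3111,
  nat_lit 2062, nat_lit 2214, nat_lit 2381, nat_lit 3181, nat_lit 1765, nat_lit 4333, nat_lit 3878,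
  nat_lit 2880, nat_lit 1311, nat_lit 5033, nat_lit 1507, nat_lit 2604, nat_lit 1780, nat_lit 4252,
  nat_lit 3851, nat_lit 3945, nat_lit 1107, nat_lit 1058, nat_lit 4528, nat_lit 7, nat_lit 76,
  nat_lit 310, nat_lit 77, nat_lit 1457, nat_lit 3067, nat_lit 3909, nat_lit 3900, nat_lit 1077,
  nat_lit 3583, nat_lit 4375, nat_lit 2747, nat_lit 4360, nat_lit 792, nat_lit 5012, nat_lit 2520,
  nat_lit 2872, nat_lit 609, nat_lit 2723, nat_lit 104, nat_lit 363, nat_lit 280, nat_lit 2580,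
  nat_lit 4536, nat_lit 4938, nat_lit 167, nat_lit 729, nat_lit 3799, nat_lit 1210, nat_lit 4409,
  nat_lit 2808, nat_lit 2916, nat_lit 3477, nat_lit 3899, nat_lit 2754, nat_lit 179, nat_lit 1495,
  nat_lit 2405, nat_lit 2406, nat_lit 4739, nat_lit 4452, nat_lit 4720, nat_lit 3920, nat_lit 4859,
  nat_lit 3538, nat_lit 996, nat_lit 1777, nat_lit 2686, nat_lit 293, nat_lit 984, nat_lit 3815,
  nat_lit 4842, nat_lit 144, nat_lit 1127, nat_lit 2625, nat_lit 140, nat_lit 2415, nat_lit 4164,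
  nat_lit 2681, nat_lit 1759, nat_lit 292, nat_lit 4463, nat_lit 4313, nat_lit 4373, nat_lit 49,
  nat_lit 1526, nat_lit 1301, nat_lit 2924, nat_lit 2252, nat_lit 2061, nat_lit 737, nat_lit 307,
  nat_lit 2246, nat_lit 4601, nat_lit 2825, nat_lit 1625, nat_lit 1739, nat_lit 1436, nat_lit 1448,
  nat_lit 2733, nat_lit 1633, nat_lit 2196, nat_lit 694, nat_lit 2971, nat_lit 2849, nat_lit 1634,
  nat_lit 1177, nat_lit 3669, nat_lit 2662, nat_lit 2293, nat_lit 3923, nat_lit 3863, nat_lit 4436,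
  nat_lit 2701, nat_lit 4262, nat_lit 1282, nat_lit 1737, nat_lit 2273, nat_lit 4173, nat_lit 1245,
  nat_lit 2240, nat_lit 3134, nat_lit 2171, nat_lit 2230, nat_lit 3916, nat_lit 3917, nat_lit 1686,
  nat_lit 103, nat_lit 3885, nat_lit 4880, nat_lit 1885, nat_lit 5013, nat_lit 2001, nat_lit 744,
  nat_lit 1525, nat_lit 743, nat_lit 157, nat_lit 517, nat_lit 379, nat_lit 2549, nat_lit 2066,
  nat_lit 2519, nat_lit 349, nat_lit 2206, nat_lit 4863, nat_lit 4279, nat_lit 4860, nat_lit 1029,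
  nat_lit 4750, nat_lit 2128, nat_lit 3972, nat_lit 4857, nat_lit 4852, nat_lit 2499, nat_lit 1838,
  nat_lit 4510, nat_lit 2211, nat_lit 3785, nat_lit 2522, nat_lit 1040, nat_lit 3609, nat_lit 3185,
  nat_lit 3137, nat_lit 1158, nat_lit 2993, nat_lit 4159, nat_lit 4619, nat_lit 4277, nat_lit 2749,
  nat_lit 3966, nat_lit 4305, nat_lit 2719, nat_lit 1183, nat_lit 1673, nat_lit 4359, nat_lit 1620,
  nat_lit 4356, nat_lit 4598, nat_lit 3273, nat_lit 3968, nat_lit 1295, nat_lit 3448, nat_lit 3861,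
  nat_lit 2837, nat_lit 1412, nat_lit 2961, nat_lit 4218, nat_lit 4182, nat_lit 1406, nat_lit 4415,
  nat_lit 3685, nat_lit 2633, nat_lit 860, nat_lit 3000, nat_lit 2149, nat_lit 1243, nat_lit 3586,
  nat_lit 1273, nat_lit 1556, nat_lit 3820, nat_lit 3571, nat_lit 3867, nat_lit 2297, nat_lit 203,
  nat_lit 2850, nat_lit 1957, nat_lit 1506, nat_lit 2501, nat_lit 3375, nat_lit 2756, nat_lit 3286,
  nat_lit 842, nat_lit 3694, nat_lit 783, nat_lit 787, nat_lit 3274, nat_lit 3937, nat_lit 2640,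
  nat_lit 662, nat_lit 891, nat_lit 60, nat_lit 4526, nat_lit 36, nat_lit 4414, nat_lit 2357,
  nat_lit 3404, nat_lit 501, nat_lit 877, nat_lit 221, nat_lit 4744, nat_lit 4302, nat_lit 1898,
  nat_lit 5048, nat_lit 161, nat_lit 3802, nat_lit 3001, nat_lit 2517, nat_lit 4201, nat_lit 356,
  nat_lit 345, nat_lit 767, nat_lit 892, nat_lit 3602, nat_lit 2350, nat_lit 3857, nat_lit 343,
  nat_lit 4351, nat_lit 4932, nat_lit 516, nat_lit 476, nat_lit 387, nat_lit 4030, nat_lit 3860,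
  nat_lit 3368, nat_lit 4039, nat_lit 3541, nat_lit 5032, nat_lit 4053, nat_lit 1469, nat_lit 3607,
  nat_lit 779, nat_lit 3285, nat_lit 619, nat_lit 256, nat_lit 3877, nat_lit 4499, nat_lit 2120,
  nat_lit 1387, nat_lit 4699, nat_lit 3624, nat_lit 4060, nat_lit 4539, nat_lit 4296, nat_lit 4239,
  nat_lit 4357, nat_lit 4637, nat_lit 2720, nat_lit 4632, nat_lit 4937, nat_lit 2516, nat_lit 3324,
  nat_lit 3876, nat_lit 3362, nat_lit 3533, nat_lit 1549, nat_lit 3969, nat_lit 4719, nat_lit 2472,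
  nat_lit 3611, nat_lit 4266, nat_lit 3842, nat_lit 4796, nat_lit 2288, nat_lit 530, nat_lit 3096,
  nat_lit 4193, nat_lit 3570, nat_lit 3520, nat_lit 3098, nat_lit 278, nat_lit 3168, nat_lit 4397,
  nat_lit 3228, nat_lit 1915, nat_lit 1866, nat_lit 2418, nat_lit 2974, nat_lit 1386, nat_lit 4504,
  nat_lit 1648, nat_lit 1370, nat_lit 1371, nat_lit 3002, nat_lit 1418, nat_lit 2713, nat_lit 3919,
  nat_lit 1852, nat_lit 1443, nat_lit 1463, nat_lit 3886, nat_lit 4702, nat_lit 4347, nat_lit 2249,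
  nat_lit 3167, nat_lit 3106, nat_lit 2359, nat_lit 1945, nat_lit 4142, nat_lit 1946, nat_lit 2794,
  nat_lit 1134, nat_lit 1931, nat_lit 1933, nat_lit 1675, nat_lit 4116, nat_lit 4096, nat_lit 2920,
  nat_lit 2861, nat_lit 1446, nat_lit 782, nat_lit 2975, nat_lit 4005, nat_lit 4045, nat_lit 4231,
  nat_lit 1907, nat_lit 5003, nat_lit 5004, nat_lit 1678, nat_lit 4253, nat_lit 3072, nat_lit 3731,
  nat_lit 3304, nat_lit 4771, nat_lit 2657, nat_lit 3327, nat_lit 4714, nat_lit 4494, nat_lit 671,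
  nat_lit 3345, nat_lit 3346, nat_lit 1167, nat_lit 2339, nat_lit 3629, nat_lit 1754, nat_lit 1964,
  nat_lit 4036, nat_lit 3752, nat_lit 1118, nat_lit 1536, nat_lit 3732, nat_lit 3932, nat_lit 3469,
  nat_lit 2487, nat_lit 3622, nat_lit 2301, nat_lit 4728, nat_lit 1916, nat_lit 1537, nat_lit 4950,
  nat_lit 97, nat_lit 3484, nat_lit 3724, nat_lit 4444, nat_lit 3032, nat_lit 2982, nat_lit 1276,
  nat_lit 1742, nat_lit 1803, nat_lit 3034, nat_lit 3201, nat_lit 3713, nat_lit 2702, nat_lit 245,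
  nat_lit 99, nat_lit 1355, nat_lit 2898, nat_lit 1956, nat_lit 388, nat_lit 879, nat_lit 2571,
  nat_lit 1978, nat_lit 335, nat_lit 472, nat_lit 3257, nat_lit 4538, nat_lit 5026, nat_lit 5027,
  nat_lit 3710, nat_lit 4081, nat_lit 4540, nat_lit 4591, nat_lit 4184, nat_lit 1192, nat_lit 4226,
  nat_lit 4365, nat_lit 1344, nat_lit 2812, nat_lit 3329, nat_lit 1563, nat_lit 3716, nat_lit 607,
  nat_lit 3249, nat_lit 1415, nat_lit 145, nat_lit 2584, nat_lit 2964, nat_lit 2191, nat_lit 3733,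
  nat_lit 1317, nat_lit 997, nat_lit 4432, nat_lit 3209, nat_lit 4038, nat_lit 4, nat_lit 2639,
  nat_lit 2220, nat_lit 3641, nat_lit 4607, nat_lit 2634, nat_lit 2926, nat_lit 2796, nat_lit 3176,
  nat_lit 1419, nat_lit 1711, nat_lit 2441, nat_lit 4353, nat_lit 4450, nat_lit 2258, nat_lit 2496,
  nat_lit 4742, nat_lit 2809, nat_lit 4782, nat_lit 2597, nat_lit 1560, nat_lit 801, nat_lit 1224,
  nat_lit 3238, nat_lit 3579, nat_lit 4092, nat_lit 4056, nat_lit 2089, nat_lit 1293, nat_lit 3505,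
  nat_lit 3995, nat_lit 1927, nat_lit 4191, nat_lit 4486, nat_lit 3159, nat_lit 308, nat_lit 3977,
  nat_lit 3328, nat_lit 735, nat_lit 50, nat_lit 736, nat_lit 1954, nat_lit 2542, nat_lit 3889,
  nat_lit 1904, nat_lit 149, nat_lit 746, nat_lit 868, nat_lit 166, nat_lit 864, nat_lit 898,
  nat_lit 953, nat_lit 631, nat_lit 623, nat_lit 546, nat_lit 1212, nat_lit 3788, nat_lit 2537,
  nat_lit 2678, nat_lit 2382, nat_lit 3918, nat_lit 4956, nat_lit 3787, nat_lit 4093, nat_lit 2877,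
  nat_lit 976, nat_lit 96, nat_lit 1, nat_lit 1377, nat_lit 1734, nat_lit 3436, nat_lit 533,
  nat_lit 2757, nat_lit 2205, nat_lit 2232, nat_lit 4260, nat_lit 3473, nat_lit 4216, nat_lit 1172,
  nat_lit 3670, nat_lit 4647, nat_lit 4881, nat_lit 1287, nat_lit 3675, nat_lit 3672, nat_lit 1396,
  nat_lit 3355, nat_lit 2784, nat_lit 3935, nat_lit 3261, nat_lit 226, nat_lit 4544, nat_lit 1508,
  nat_lit 429, nat_lit 2495, nat_lit 372, nat_lit 3964, nat_lit 4355, nat_lit 2706, nat_lit 626,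
  nat_lit 1481, nat_lit 2438, nat_lit 2247, nat_lit 1844, nat_lit 4948, nat_lit 5030, nat_lit 4730,
  nat_lit 3746, nat_lit 4462, nat_lit 2858, nat_lit 416, nat_lit 957, nat_lit 2631, nat_lit 3698,
  nat_lit 2995, nat_lit 2617, nat_lit 4707, nat_lit 368, nat_lit 852, nat_lit 2201, nat_lit 1853,
  nat_lit 780, nat_lit 521, nat_lit 1090, nat_lit 1579, nat_lit 769, nat_lit 5062, nat_lit 2728,
  nat_lit 5021, nat_lit 361, nat_lit 3648, nat_lit 3245, nat_lit 4073, nat_lit 3322, nat_lit 2243,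
  nat_lit 4085, nat_lit 3231, nat_lit 3604, nat_lit 1010, nat_lit 497, nat_lit 4126, nat_lit 4652,
  nat_lit 1736, nat_lit 1445, nat_lit 4803, nat_lit 3821, nat_lit 1333, nat_lit 4844, nat_lit 3023,
  nat_lit 1944, nat_lit 243, nat_lit 4012, nat_lit 1476, nat_lit 2225, nat_lit 2429, nat_lit 1305,
  nat_lit 1066, nat_lit 4946, nat_lit 3078, nat_lit 2862, nat_lit 2918, nat_lit 2902, nat_lit 4261,
  nat_lit 3864, nat_lit 1913, nat_lit 3225, nat_lit 2801, nat_lit 4319, nat_lit 3321, nat_lit 3506,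
  nat_lit 3952, nat_lit 3723, nat_lit 3638, nat_lit 4507, nat_lit 4698, nat_lit 1568, nat_lit 2352,
  nat_lit 4561, nat_lit 3701, nat_lit 2207, nat_lit 2282, nat_lit 4734, nat_lit 4733, nat_lit 4689,
  nat_lit 1149, nat_lit 1960, nat_lit 1260, nat_lit 1055, nat_lit 89, nat_lit 814, nat_lit 2374,
  nat_lit 4325, nat_lit 1411, nat_lit 3035, nat_lit 2439, nat_lit 1230, nat_lit 3654, nat_lit 3721,
  nat_lit 3283, nat_lit 3226, nat_lit 3413, nat_lit 3653, nat_lit 4963, nat_lit 3363, nat_lit 434,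
  nat_lit 2267, nat_lit 4941, nat_lit 239, nat_lit 238, nat_lit 894, nat_lit 442, nat_lit 2044,
  nat_lit 3526, nat_lit 2299, nat_lit 4626, nat_lit 1732, nat_lit 4985, nat_lit 2046, nat_lit 4069,
  nat_lit 921, nat_lit 1231, nat_lit 1628, nat_lit 4212, nat_lit 1089, nat_lit 3369, nat_lit 2979,
  nat_lit 4022, nat_lit 4793, nat_lit 4830, nat_lit 3171, nat_lit 796, nat_lit 2554, nat_lit 2393,
  nat_lit 3140, nat_lit 1097, nat_lit 2113, nat_lit 4412, nat_lit 3850, nat_lit 2064, nat_lit 4636,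
  nat_lit 4114, nat_lit 3513, nat_lit 2213, nat_lit 532, nat_lit 4457, nat_lit 1095, nat_lit 1163,
  nat_lit 2186, nat_lit 1251, nat_lit 459, nat_lit 4008, nat_lit 1137, nat_lit 1138, nat_lit 590,
  nat_lit 3184, nat_lit 2967, nat_lit 1958, nat_lit 704, nat_lit 1356, nat_lit 3342, nat_lit 4453,
  nat_lit 829, nat_lit 1662, nat_lit 98, nat_lit 2590, nat_lit 5037, nat_lit 3592, nat_lit 4780,
  nat_lit 48, nat_lit 4530, nat_lit 1696, nat_lit 1655, nat_lit 861, nat_lit 855, nat_lit 4214,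
  nat_lit 1304, nat_lit 585, nat_lit 663, nat_lit 3657, nat_lit 773, nat_lit 325, nat_lit 2488,
  nat_lit 3981, nat_lit 1308, nat_lit 3740, nat_lit 4574, nat_lit 2777, nat_lit 4725, nat_lit 883,
  nat_lit 515, nat_lit 681, nat_lit 3954, nat_lit 675, nat_lit 2106, nat_lit 2402, nat_lit 2815,
  nat_lit 4964, nat_lit 2195, nat_lit 3747, nat_lit 3955, nat_lit 3154, nat_lit 3998, nat_lit 4764,
  nat_lit 3554, nat_lit 2605, nat_lit 627, nat_lit 817, nat_lit 4041, nat_lit 505, nat_lit 1810,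
  nat_lit 768, nat_lit 230, nat_lit 1450, nat_lit 1551, nat_lit 4947, nat_lit 4620, nat_lit 1548,
  nat_lit 2071, nat_lit 4034, nat_lit 4392, nat_lit 3097, nat_lit 4471, nat_lit 2167, nat_lit 4678,
  nat_lit 4124, nat_lit 1322, nat_lit 1471, nat_lit 4584, nat_lit 4903, nat_lit 610, nat_lit 4569,
  nat_lit 1842, nat_lit 1027, nat_lit 3223, nat_lit 5022, nat_lit 770, nat_lit 1258, nat_lit 900,
  nat_lit 3745, nat_lit 3655, nat_lit 633, nat_lit 4897, nat_lit 3124, nat_lit 4101, nat_lit 3266,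
  nat_lit 1349, nat_lit 2787, nat_lit 4967, nat_lit 4454, nat_lit 326, nat_lit 2698, nat_lit 1315,
  nat_lit 3449, nat_lit 1886, nat_lit 5067, nat_lit 1763, nat_lit 2857, nat_lit 1225, nat_lit 3535,
  nat_lit 4680, nat_lit 286, nat_lit 3455, nat_lit 2078, nat_lit 587, nat_lit 3668, nat_lit 2945,
  nat_lit 4042, nat_lit 3822, nat_lit 3552, nat_lit 1473, nat_lit 1730, nat_lit 4265, nat_lit 4724,
  nat_lit 3915, nat_lit 3384, nat_lit 1441, nat_lit 4743, nat_lit 5036, nat_lit 689, nat_lit 3307,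
  nat_lit 4697, nat_lit 679, nat_lit 1546, nat_lit 1735, nat_lit 3931, nat_lit 1475, nat_lit 3859,
  nat_lit 3062, nat_lit 1664, nat_lit 4013, nat_lit 4752, nat_lit 4419, nat_lit 4487, nat_lit 3728,
  nat_lit 100, nat_lit 5063, nat_lit 4716, nat_lit 336, nat_lit 479, nat_lit 4679, nat_lit 5051,
  nat_lit 4635, nat_lit 2466, nat_lit 4638, nat_lit 4745, nat_lit 2304, nat_lit 1558, nat_lit 4009,
  nat_lit 2680, nat_lit 410, nat_lit 414, nat_lit 1021, nat_lit 2266, nat_lit 2122, nat_lit 2948,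
  nat_lit 4496, nat_lit 5046, nat_lit 4559, nat_lit 1603, nat_lit 4517, nat_lit 4108, nat_lit 3270,
  nat_lit 4556, nat_lit 4324, nat_lit 4642, nat_lit 2481, nat_lit 2265, nat_lit 4825, nat_lit 406,
  nat_lit 3501, nat_lit 2094, nat_lit 79, nat_lit 413, nat_lit 3781, nat_lit 126, nat_lit 3075,
  nat_lit 4563, nat_lit 5053, nat_lit 2842, nat_lit 3086, nat_lit 4240, nat_lit 4278, nat_lit 5059,
  nat_lit 1244, nat_lit 3647, nat_lit 2098, nat_lit 4761, nat_lit 1006, nat_lit 4518, nat_lit 1984,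
  nat_lit 330, nat_lit 3760, nat_lit 4104, nat_lit 4130, nat_lit 407, nat_lit 4690, nat_lit 986,
  nat_lit 5058, nat_lit 5041, nat_lit 2935, nat_lit 3810, nat_lit 5010, nat_lit 4686, nat_lit 4505,
  nat_lit 1870, nat_lit 2091, nat_lit 5009, nat_lit 5011, nat_lit 1619, nat_lit 1219, nat_lit 586,
  nat_lit 1982, nat_lit 4570, nat_lit 3085, nat_lit 2480, nat_lit 4807, nat_lit 3474, nat_lit 3707,
  nat_lit 4424, nat_lit 3660, nat_lit 4425, nat_lit 3759, nat_lit 1478, nat_lit 3939, nat_lit 3814,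
  nat_lit 4492, nat_lit 1547, nat_lit 4491, nat_lit 4582, nat_lit 4999, nat_lit 4187, nat_lit 4971,
  nat_lit 4976, nat_lit 2160, nat_lit 1989, nat_lit 3260, nat_lit 3339, nat_lit 3813, nat_lit 1434,
  nat_lit 2102, nat_lit 5001, nat_lit 826, nat_lit 78, nat_lit 825, nat_lit 4121, nat_lit 4634,
  nat_lit 4079, nat_lit 2322, nat_lit 2603, nat_lit 682, nat_lit 4127, nat_lit 3044, nat_lit 107,
  nat_lit 3656, nat_lit 4664, nat_lit 4981, nat_lit 4519, nat_lit 4509, nat_lit 1749, nat_lit 260,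
  nat_lit 3651, nat_lit 5042, nat_lit 4813, nat_lit 4129, nat_lit 1030, nat_lit 4048, nat_lit 4959,
  nat_lit 1819, nat_lit 4298, nat_lit 2079, nat_lit 4503, nat_lit 4097, nat_lit 2786, nat_lit 4799,
  nat_lit 3627, nat_lit 4655, nat_lit 4785, nat_lit 4131, nat_lit 4117, nat_lit 4566]

/-- the trace as a number -/
def key (a : ℕ) : ℕ := Nat.shiftRight (rcd a).tr 16

/-- the keys increase -/
def chkS (l : List ℕ) : ℕ → Bool :=
  @List.rec ℕ (fun _ => ℕ → Bool) (fun _ => true) (fun a _ ih p =>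
    frc (key a) fun K => cond (Nat.blt p K) (cond (Nat.blt K (Nat.pow 2 264)) (cond (Nat.blt a 5074)
      (ih K) false) false) false) l

theorem ordL_ok : chkS ordL 0 = true := by decide +kernel

theorem ordL_len : ordL.length = 5074 := by decide +kernel

theorem chkS_sound {l : List ℕ} {p : ℕ} (h : chkS l p = true) :
    (∀ a ∈ l, p < key a ∧ key a < 2 ^ 264 ∧ a < 5074) ∧ l.Pairwise (fun a b => key a < key b) := by
  induction l generalizing p with
  | nil => exact ⟨fun a ha => absurd ha List.not_mem_nil, List.Pairwise.nil⟩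
  | cons x l ih =>
    have e : chkS (x :: l) p = frc (key x) fun K => cond (Nat.blt p K)
      (cond (Nat.blt K (Nat.pow 2 264)) (cond (Nat.blt x 5074) (chkS l K) false) false) false := rfl
    rw [e, frc_eq] at h
    cases h1 : Nat.blt p (key x)
    · rw [h1, cond_false] at h
      exact absurd h Bool.false_ne_true
    cases h2 : Nat.blt (key x) (Nat.pow 2 264)
    · rw [h1, h2, cond_true, cond_false] at h
      exact absurd h Bool.false_ne_true
    cases h3 : Nat.blt x 5074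
    · rw [h1, h2, h3, cond_true, cond_true, cond_false] at h
      exact absurd h Bool.false_ne_true
    rw [h1, h2, h3, cond_true, cond_true, cond_true] at h
    rw [Nat.blt_eq] at h1 h2 h3
    obtain ⟨h4, h5⟩ := ih h
    refine ⟨?_, List.pairwise_cons.2 ⟨fun b hb => (h4 b hb).1, h5⟩⟩
    intro a ha
    rcases List.mem_cons.1 ha with rfl | ha
    · exact ⟨h1, h2, h3⟩
    · exact ⟨h1.trans (h4 a ha).1, (h4 a ha).2⟩

theorem mem_ordL {a : ℕ} (ha : a < 5074) : a ∈ ordL := by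
  obtain ⟨h1, h2⟩ := chkS_sound ordL_ok
  have h3 : ordL.Nodup := h2.imp fun h h' => by
    rw [h'] at h
    exact absurd h (lt_irrefl _)
  have h4 : ordL ⊆ List.range 5074 := fun b hb => List.mem_range.2 (h1 b hb).2.2
  have h5 := (List.subperm_of_subset h3 h4).perm_of_length_le (by
    rw [List.length_range, ordL_len])
  exact h5.mem_iff.2 (List.mem_range.2 ha)

theorem key_lt {a : ℕ} (ha : a < 5074) : key a < 2 ^ 264 :=
  ((chkS_sound ordL_ok).1 a (mem_ordL ha)).2.1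

theorem key_inj {a b : ℕ} (ha : a < 5074) (hb : b < 5074) (h : key a = key b) : a = b := by
  obtain ⟨-, h2⟩ := chkS_sound ordL_ok
  by_contra hne
  have h3 := List.pairwise_iff_getElem.1 h2
  obtain ⟨i, hi, hi2⟩ := List.mem_iff_getElem.1 (mem_ordL ha)
  obtain ⟨j, hj, hj2⟩ := List.mem_iff_getElem.1 (mem_ordL hb)
  rcases lt_trichotomy i j with h4 | h4 | h4
  · have h5 := h3 i j hi hj h4
    rw [hi2, hj2, h] at h5
    exact absurd h5 (lt_irrefl _)
  · subst h4
    exact hne (hi2.symm.trans hj2)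
  · have h5 := h3 j i hj hi h4
    rw [hi2, hj2, h] at h5
    exact absurd h5 (lt_irrefl _)

end Pool.Agent.Helper57.TI
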