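import Pool.Agent.Helper57.TI.D0
import Pool.Agent.Helper57.TI.D1
import Pool.Agent.Helper57.TI.D2
import Pool.Agent.Helper57.TI.D3

/-!
MP_8ee768_co, project TH-Y': access to the records of the pair link types.
-/

set_option autoImplicit false
set_option maxRecDepth 100000

namespace Pool.Agent.Helper57.TI

open Pool.Agent.Helper57.TY

/-- block `k` of the records -/
def recB (k : ℕ) : List Rec :=
 (bif Nat.ble 40 k then
  (bif Nat.ble 60 k then
   (bif Nat.ble 70 k then
    (bif Nat.ble 75 k then
     (bif Nat.ble 77 k then
      (bif Nat.ble 78 k then
       (bif Nat.ble 79 k then
        (b79)
       else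
        (b78))
      else
       (b77))
     else
      (bif Nat.ble 76 k then
       (b76)
      else
       (b75)))
    else
     (bif Nat.ble 72 k then
      (bif Nat.ble 73 k then
       (bif Nat.ble 74 k then
        (b74)
       else
        (b73))
      else
       (b72))
     else
      (bif Nat.ble 71 k then
       (b71)
      else
       (b70))))
   else
    (bif Nat.ble 65 k then
     (bif Nat.ble 67 k then
      (bif Nat.ble 68 k then
       (bif Nat.ble 69 k then
        (b69)
       else
        (b68))
      else
       (b67))
     else
      (bif Nat.ble 66 k then
       (b66)
      else
       (b65)))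
    else
     (bif Nat.ble 62 k then
      (bif Nat.ble 63 k then
       (bif Nat.ble 64 k then
        (b64)
       else
        (b63))
      else
       (b62))
     else
      (bif Nat.ble 61 k then
       (b61)
      else
       (b60)))))
  else
   (bif Nat.ble 50 k then
    (bif Nat.ble 55 k then
     (bif Nat.ble 57 k then
      (bif Nat.ble 58 k then
       (bif Nat.ble 59 k then
        (b59)
       else
        (b58))
      else
       (b57))
     else
      (bif Nat.ble 56 k then
       (b56)
      else
       (b55)))
    else
     (bif Nat.ble 52 k then
      (bif Nat.ble 53 k then
       (bif Nat.ble 54 k then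
        (b54)
       else
        (b53))
      else
       (b52))
     else
      (bif Nat.ble 51 k then
       (b51)
      else
       (b50))))
   else
    (bif Nat.ble 45 k then
     (bif Nat.ble 47 k then
      (bif Nat.ble 48 k then
       (bif Nat.ble 49 k then
        (b49)
       else
        (b48))
      else
       (b47))
     else
      (bif Nat.ble 46 k then
       (b46)
      else
       (b45)))
    else
     (bif Nat.ble 42 k then
      (bif Nat.ble 43 k then
       (bif Nat.ble 44 k then
        (b44)
       else
        (b43))
      else
       (b42))
     else
      (bif Nat.ble 41 k then
       (b41)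
      else
       (b40))))))
 else
  (bif Nat.ble 20 k then
   (bif Nat.ble 30 k then
    (bif Nat.ble 35 k then
     (bif Nat.ble 37 k then
      (bif Nat.ble 38 k then
       (bif Nat.ble 39 k then
        (b39)
       else
        (b38))
      else
       (b37))
     else
      (bif Nat.ble 36 k then
       (b36)
      else
       (b35)))
    else
     (bif Nat.ble 32 k then
      (bif Nat.ble 33 k then
       (bif Nat.ble 34 k then
        (b34)
       else
        (b33))
      else
       (b32))
     else
      (bif Nat.ble 31 k then
       (b31)
      else
       (b30))))
   else
    (bif Nat.ble 25 k then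
     (bif Nat.ble 27 k then
      (bif Nat.ble 28 k then
       (bif Nat.ble 29 k then
        (b29)
       else
        (b28))
      else
       (b27))
     else
      (bif Nat.ble 26 k then
       (b26)
      else
       (b25)))
    else
     (bif Nat.ble 22 k then
      (bif Nat.ble 23 k then
       (bif Nat.ble 24 k then
        (b24)
       else
        (b23))
      else
       (b22))
     else
      (bif Nat.ble 21 k then
       (b21)
      else
       (b20)))))
  else
   (bif Nat.ble 10 k then
    (bif Nat.ble 15 k then
     (bif Nat.ble 17 k then
      (bif Nat.ble 18 k then
       (bif Nat.ble 19 k then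
        (b19)
       else
        (b18))
      else
       (b17))
     else
      (bif Nat.ble 16 k then
       (b16)
      else
       (b15)))
    else
     (bif Nat.ble 12 k then
      (bif Nat.ble 13 k then
       (bif Nat.ble 14 k then
        (b14)
       else
        (b13))
      else
       (b12))
     else
      (bif Nat.ble 11 k then
       (b11)
      else
       (b10))))
   else
    (bif Nat.ble 5 k then
     (bif Nat.ble 7 k then
      (bif Nat.ble 8 k then
       (bif Nat.ble 9 k then
        (b9)
       else
        (b8))
      else
       (b7))
     else
      (bif Nat.ble 6 k then
       (b6)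
      else
       (b5)))
    else
     (bif Nat.ble 2 k then
      (bif Nat.ble 3 k then
       (bif Nat.ble 4 k then
        (b4)
       else
        (b3))
      else
       (b2))
     else
      (bif Nat.ble 1 k then
       (b1)
      else
       (b0)))))))

/-- the empty record -/
def rec0 : Rec := (0, 0, 0, 0, [])

/-- member of a list -/
def nthR (l : List Rec) : ℕ → Rec :=
  @List.rec Rec (fun _ => ℕ → Rec) (fun _ => rec0) (fun x _ ih i => cond (Nat.beq i 0) x
    (frc (Nat.pred i) fun i' => ih i')) l

/-- record of the type `a` -/
def rcd (a : ℕ) : Rec := nthR (recB (Nat.shiftRight a 6)) (Nat.land a 63)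

/-- codes of the automorphisms of the type `a`: digit `i` is the image of the point `i` -/
def auts (a : ℕ) : List ℕ := (rcd a).au.map Prod.fst

theorem nthR_eq {l : List Rec} {i : ℕ} (h : i < l.length) : nthR l i = l[i] := by
  induction l generalizing i with
  | nil => exact absurd h (Nat.not_lt_zero _)
  | cons x l ih =>
    have e : nthR (x :: l) i = cond (Nat.beq i 0) x (frc (Nat.pred i) fun i' => nthR l i') := rfl
    rw [e, frc_eq]
    cases i with
    | zero => rfl
    | succ i =>
      rw [show Nat.beq (i + 1) 0 = false from rfl, cond_false]
      have h' : i < l.length := by
        rw [List.length_cons] at h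
        omega
      exact ih h'

end Pool.Agent.Helper57.TI
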